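import Mathlib

/-!
Definitions for MP_45ee41_an: the oscillatory principal-value operators `H_{ε,λ}` and the maximally
modulated operator `C_ε`.
-/

open MeasureTheory Filter Topology Set

namespace Pool.Agent.Lib.MP_45ee41_an

/-- The truncated integral
`∫_{δ < |x-y| < 1/δ} exp(i λ |x-y|^ε) / (x-y) * f(y) dy`. -/
noncomputable def truncated (ε lam : ℝ) (f : ℝ → ℂ) (x δ : ℝ) : ℂ :=
  ∫ y in {y : ℝ | δ < |x - y| ∧ |x - y| < 1 / δ},
    Complex.exp (Complex.I * ((lam * |x - y| ^ ε : ℝ) : ℂ)) / ((x - y : ℝ) : ℂ) * f y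

/-- `H_{ε,λ} f (x)`: the limit of the truncated integrals as `δ → 0+`. -/
noncomputable def H (ε lam : ℝ) (f : ℝ → ℂ) (x : ℝ) : ℂ :=
  limUnder (𝓝[>] (0 : ℝ)) (fun δ : ℝ => truncated ε lam f x δ)

/-- `C_ε f (x) = sup_λ |H_{ε,λ} f (x)|`, as a value in `[0,∞]`. -/
noncomputable def maximal (ε : ℝ) (f : ℝ → ℂ) (x : ℝ) : ENNReal :=
  ⨆ lam : ℝ, ‖H ε lam f x‖ₑ

end Pool.Agent.Lib.MP_45ee41_an
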