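import Mathlib

open MeasureTheory Filter Topology Set

namespace Pool.Agent.Lib.MP_45ee41_an

/-- alignment lemma -/
theorem align (m : ℕ) (θ : ℕ → ℝ) :
    ∃ μ : ℝ, 0 ≤ μ ∧ μ ≤ (2 * Real.pi / 990) * (1 - (1/100 : ℝ) ^ m) ∧
      ∀ j, j < m → ∃ n : ℤ, |μ * (1000 * 100 ^ j) - θ j - 2 * Real.pi * n| ≤
        (2 * Real.pi / 99) * (1 - (1/100 : ℝ) ^ (m - 1 - j)) := by
  induction m with
  | zero => exact ⟨0, le_refl _, by simp, fun j hj => absurd hj (Nat.not_lt_zero j)⟩
  | succ m ih =>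
    obtain ⟨μ, hμ0, hμ1, hμ⟩ := ih
    have hpi := Real.pi_pos
    -- choose s in [0, 2π) with μ K_m + s ≡ θ_m
    obtain ⟨s, hs0, hs1, n, hn⟩ : ∃ s : ℝ, 0 ≤ s ∧ s < 2 * Real.pi ∧ ∃ n : ℤ,
        μ * (1000 * 100 ^ m) + s - θ m - 2 * Real.pi * n = 0 := by
      have h2pi : 0 < 2 * Real.pi := by positivity
      refine ⟨toIcoMod h2pi 0 (θ m - μ * (1000 * 100 ^ m)), ?_, ?_, ?_⟩
      · exact (toIcoMod_mem_Ico' h2pi _).1
      · exact (toIcoMod_mem_Ico' h2pi _).2
      · refine ⟨-toIcoDiv h2pi 0 (θ m - μ * (1000 * 100 ^ m)), ?_⟩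
        have := toIcoMod_add_toIcoDiv_zsmul h2pi 0 (θ m - μ * (1000 * 100 ^ m))
        rw [zsmul_eq_mul] at this
        push_cast
        linarith
    have hKpos : (0 : ℝ) < 1000 * 100 ^ m := by positivity
    refine ⟨μ + s / (1000 * 100 ^ m), by positivity, ?_, ?_⟩
    · have h1 : s / (1000 * 100 ^ m) ≤ (2 * Real.pi / 990) * ((1/100 : ℝ) ^ m - (1/100 : ℝ) ^ (m + 1)) := by
        rw [div_le_iff₀ hKpos]
        have : (2 * Real.pi / 990) * ((1/100 : ℝ) ^ m - (1/100 : ℝ) ^ (m + 1)) * (1000 * 100 ^ m)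
            = 2 * Real.pi := by
          have h3 : ((1/100 : ℝ) ^ m) * 100 ^ m = 1 := by
            rw [← mul_pow]; norm_num
          calc (2 * Real.pi / 990) * ((1/100 : ℝ) ^ m - (1/100 : ℝ) ^ (m + 1)) * (1000 * 100 ^ m)
              = (2 * Real.pi / 990) * (990 * (((1/100 : ℝ) ^ m) * 100 ^ m)) := by ring
            _ = 2 * Real.pi := by rw [h3]; ring
        rw [this]
        exact hs1.le
      linarith
    · intro j hj
      rcases Nat.lt_succ_iff_lt_or_eq.mp hj with hlt | heq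
      · obtain ⟨k, hk⟩ := hμ j hlt
        refine ⟨k, ?_⟩
        have hexp : m + 1 - 1 - j = (m - 1 - j) + 1 := by omega
        rw [hexp]
        have hcalc : (μ + s / (1000 * 100 ^ m)) * (1000 * 100 ^ j) - θ j - 2 * Real.pi * k
            = (μ * (1000 * 100 ^ j) - θ j - 2 * Real.pi * k) + s * ((1/100 : ℝ) ^ (m - j)) := by
          have h100 : ((100 : ℝ) ^ m) = 100 ^ j * 100 ^ (m - j) := by
            rw [← pow_add]; congr 1; omega
          have : s / (1000 * 100 ^ m) * (1000 * 100 ^ j) = s * ((1/100 : ℝ) ^ (m - j)) := by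
            rw [h100, one_div, inv_pow]
            field_simp
          rw [add_mul, this]; ring
        rw [hcalc]
        have habs : |s * ((1/100 : ℝ) ^ (m - j))| ≤ 2 * Real.pi * (1/100 : ℝ) ^ (m - j) := by
          rw [abs_of_nonneg (by positivity)]
          exact mul_le_mul_of_nonneg_right hs1.le (by positivity)
        have hmj : m - j = (m - 1 - j) + 1 := by omega
        rw [hmj] at habs ⊢
        refine (abs_add_le _ _).trans ?_
        have : (2 * Real.pi / 99) * (1 - (1/100 : ℝ) ^ (m - 1 - j))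
            + 2 * Real.pi * (1/100 : ℝ) ^ ((m - 1 - j) + 1)
            = (2 * Real.pi / 99) * (1 - (1/100 : ℝ) ^ ((m - 1 - j) + 1)) := by
          rw [pow_succ]; ring
        linarith
      · subst heq
        refine ⟨n, ?_⟩
        have : (μ + s / (1000 * 100 ^ j)) * (1000 * 100 ^ j) - θ j - 2 * Real.pi * n
            = μ * (1000 * 100 ^ j) + s - θ j - 2 * Real.pi * n := by
          field_simp
        rw [this, hn]
        simp

theorem align' (m : ℕ) (θ : ℕ → ℝ) :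
    ∃ μ : ℝ, 0 ≤ μ ∧ μ ≤ 1/100 ∧
      ∀ j, j < m → ∃ n : ℤ, |μ * (1000 * 100 ^ j) - θ j - 2 * Real.pi * n| ≤ 1/10 := by
  obtain ⟨μ, h0, h1, h⟩ := align m θ
  have hpi := Real.pi_lt_d2
  have hpos := Real.pi_pos
  refine ⟨μ, h0, ?_, ?_⟩
  · have : (0:ℝ) ≤ (1/100 : ℝ) ^ m := by positivity
    nlinarith
  · intro j hj
    obtain ⟨n, hn⟩ := h j hj
    refine ⟨n, hn.trans ?_⟩
    have : (0:ℝ) ≤ (1/100 : ℝ) ^ (m - 1 - j) := by positivity
    nlinarith


/-- integration by parts bound -/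
theorem ibp_bound {a b : ℝ} (hab : a ≤ b) {u v u' v' : ℝ → ℂ} {M V : ℝ}
    (hu : ∀ x ∈ Icc a b, HasDerivAt u (u' x) x)
    (hv : ∀ x ∈ Icc a b, HasDerivAt v (v' x) x)
    (hu' : ContinuousOn u' (Icc a b)) (hv' : ContinuousOn v' (Icc a b))
    (hV : ∀ x ∈ Icc a b, ‖v x‖ ≤ V) (hM : ∀ x ∈ Icc a b, ‖u' x‖ ≤ M) :
    ‖∫ x in a..b, u x * v' x‖ ≤ (‖u b‖ + ‖u a‖ + M * (b - a)) * V := by
  have hI : uIcc a b = Icc a b := uIcc_of_le hab
  rw [intervalIntegral.integral_mul_deriv_eq_deriv_mul (u := u) (v := v) (u' := u') (v' := v')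
    (by rw [hI]; exact hu) (by rw [hI]; exact hv)
    (by apply ContinuousOn.intervalIntegrable; rw [hI]; exact hu')
    (by apply ContinuousOn.intervalIntegrable; rw [hI]; exact hv')]
  have hV0 : 0 ≤ V := (norm_nonneg _).trans (hV a (left_mem_Icc.mpr hab))
  have hM0 : 0 ≤ M := (norm_nonneg _).trans (hM a (left_mem_Icc.mpr hab))
  have h1 : ‖u b * v b‖ ≤ ‖u b‖ * V := by
    rw [norm_mul]
    exact mul_le_mul_of_nonneg_left (hV b (right_mem_Icc.mpr hab)) (norm_nonneg _)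
  have h2 : ‖u a * v a‖ ≤ ‖u a‖ * V := by
    rw [norm_mul]
    exact mul_le_mul_of_nonneg_left (hV a (left_mem_Icc.mpr hab)) (norm_nonneg _)
  have h3 : ‖∫ x in a..b, u' x * v x‖ ≤ (M * V) * |b - a| := by
    apply intervalIntegral.norm_integral_le_of_norm_le_const
    intro x hx
    rw [uIoc_of_le hab] at hx
    have hx' : x ∈ Icc a b := ⟨hx.1.le, hx.2⟩
    rw [norm_mul]
    exact mul_le_mul (hM x hx') (hV x hx') (norm_nonneg _) hM0
  rw [abs_of_nonneg (by linarith)] at h3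
  calc ‖u b * v b - u a * v a - ∫ x in a..b, u' x * v x‖
      ≤ ‖u b * v b - u a * v a‖ + ‖∫ x in a..b, u' x * v x‖ := norm_sub_le _ _
    _ ≤ ‖u b * v b‖ + ‖u a * v a‖ + ‖∫ x in a..b, u' x * v x‖ := by
        gcongr; exact norm_sub_le _ _
    _ ≤ ‖u b‖ * V + ‖u a‖ * V + (M * V) * (b - a) := by gcongr
    _ = _ := by ring

/-- the phase `exp(i μ log s)` -/
noncomputable def ph (μ s : ℝ) : ℂ := Complex.exp (Complex.I * ((μ * Real.log s : ℝ) : ℂ))

theorem norm_ph (μ s : ℝ) : ‖ph μ s‖ = 1 := by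
  unfold ph
  rw [mul_comm]
  exact Complex.norm_exp_ofReal_mul_I _

theorem ph_mul (μ : ℝ) {s t : ℝ} (hs : 0 < s) (ht : 0 < t) : ph μ (s * t) = ph μ s * ph μ t := by
  unfold ph
  rw [← Complex.exp_add, Real.log_mul hs.ne' ht.ne']
  congr 1
  push_cast
  ring

theorem hasDerivAt_ph (μ : ℝ) {s : ℝ} (hs : s ≠ 0) :
    HasDerivAt (ph μ) (ph μ s * (Complex.I * ((μ / s : ℝ) : ℂ))) s := by
  unfold ph
  have h1 : HasDerivAt (fun s : ℝ => (μ * Real.log s)) (μ * s⁻¹) s :=
    (Real.hasDerivAt_log hs).const_mul μ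
  have h2 : HasDerivAt (fun s : ℝ => Complex.I * ((μ * Real.log s : ℝ) : ℂ))
      (Complex.I * ((μ / s : ℝ) : ℂ)) s := by
    have := (h1.ofReal_comp).const_mul Complex.I
    rw [div_eq_mul_inv]
    exact this
  exact h2.cexp

theorem continuousOn_ph (μ : ℝ) : ContinuousOn (ph μ) {s : ℝ | s ≠ 0} :=
  fun _ hs => (hasDerivAt_ph μ hs).continuousAt.continuousWithinAt

theorem measurable_ph (μ : ℝ) : Measurable (ph μ) := by
  unfold ph
  exact Complex.measurable_exp.comp (measurable_const.mul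
    (Complex.measurable_ofReal.comp (measurable_const.mul Real.measurable_log)))

/-- `S(μ, X) = ∫₀^X s^{iμ} sin s / s ds` -/
noncomputable def SS (μ X : ℝ) : ℂ := ∫ s in (0:ℝ)..X, ph μ s * ((Real.sin s / s : ℝ) : ℂ)

theorem abs_sin_div_le (s : ℝ) : |Real.sin s / s| ≤ 1 := by
  rcases eq_or_ne s 0 with h | h
  · simp [h]
  · rw [abs_div, div_le_one (abs_pos.mpr h)]
    exact Real.abs_sin_le_abs

theorem integrable_SS (μ a b : ℝ) :
    IntervalIntegrable (fun s => ph μ s * ((Real.sin s / s : ℝ) : ℂ)) volume a b := by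
  have hm : Measurable (fun s => ph μ s * ((Real.sin s / s : ℝ) : ℂ)) :=
    (measurable_ph μ).mul (Complex.measurable_ofReal.comp
      (Real.measurable_sin.div measurable_id))
  apply (intervalIntegrable_const (c := (1:ℝ))).mono_fun hm.aestronglyMeasurable
  filter_upwards with s
  rw [norm_mul, norm_ph, one_mul, Complex.norm_real, Real.norm_eq_abs, norm_one]
  exact abs_sin_div_le s

/-- derivative of ph/s -/
theorem hasDerivAt_phdiv (μ : ℝ) {s : ℝ} (hs : s ≠ 0) :
    HasDerivAt (fun s => ph μ s / (s : ℂ)) (ph μ s * (Complex.I * μ - 1) / ((s : ℂ) ^ 2)) s := by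
  have hsc : (s : ℂ) ≠ 0 := by exact_mod_cast hs
  have h1 := (hasDerivAt_ph μ hs).div (Complex.ofRealCLM.hasDerivAt (x := s)) (by
    simpa using hs)
  refine (h1.congr_deriv ?_)
  simp only [Complex.ofRealCLM_apply]
  push_cast
  field_simp

theorem norm_Imu (μ : ℝ) (hμ0 : 0 ≤ μ) (hμ : μ ≤ 1/100) : ‖Complex.I * (μ : ℂ) - 1‖ ≤ 101/100 := by
  calc ‖Complex.I * (μ : ℂ) - 1‖ ≤ ‖Complex.I * (μ : ℂ)‖ + ‖(1 : ℂ)‖ := norm_sub_le _ _
    _ = μ + 1 := by
        rw [norm_mul, Complex.norm_I, Complex.norm_real, Real.norm_eq_abs, abs_of_nonneg hμ0]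
        simp
    _ ≤ 101/100 := by linarith

/-- explicit integration by parts for the sine integral -/
theorem SS_ibp (μ : ℝ) {X Y : ℝ} (hX : 0 < X) (hXY : X ≤ Y) :
    ∫ s in X..Y, ph μ s * ((Real.sin s / s : ℝ) : ℂ) =
      ph μ X / X * Real.cos X - ph μ Y / Y * Real.cos Y +
      ∫ s in X..Y, ph μ s * (Complex.I * μ - 1) / ((s : ℂ) ^ 2) * (Real.cos s : ℂ) := by
  have hI : uIcc X Y = Icc X Y := uIcc_of_le hXY
  have hne : ∀ s ∈ Icc X Y, s ≠ 0 := fun s hs => (hX.trans_le hs.1).ne'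
  have hv : ∀ s ∈ uIcc X Y, HasDerivAt (fun s : ℝ => -((Real.cos s : ℝ) : ℂ)) ((Real.sin s : ℝ) : ℂ) s := by
    intro s _
    have := (Real.hasDerivAt_cos s).ofReal_comp.neg
    refine this.congr_deriv ?_
    push_cast
    ring
  have hcont : ContinuousOn (fun s : ℝ => ph μ s * (Complex.I * μ - 1) / ((s : ℂ) ^ 2)) (Icc X Y) := by
    apply ContinuousOn.div
    · exact ((continuousOn_ph μ).mono hne).mul continuousOn_const
    · exact (Complex.continuous_ofReal.pow 2).continuousOn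
    · intro s hs
      have := hne s hs
      have hsc : (s : ℂ) ≠ 0 := by exact_mod_cast this
      exact pow_ne_zero 2 hsc
  have h := intervalIntegral.integral_mul_deriv_eq_deriv_mul (a := X) (b := Y)
    (u := fun s => ph μ s / (s : ℂ)) (v := fun s : ℝ => -((Real.cos s : ℝ) : ℂ))
    (u' := fun s => ph μ s * (Complex.I * μ - 1) / ((s : ℂ) ^ 2))
    (v' := fun s : ℝ => ((Real.sin s : ℝ) : ℂ))
    (by rw [hI]; intro s hs; exact hasDerivAt_phdiv μ (hne s hs)) hv
    (by apply ContinuousOn.intervalIntegrable; rw [hI]; exact hcont)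
    (by apply Continuous.intervalIntegrable; exact Complex.continuous_ofReal.comp Real.continuous_sin)
  have h0 : ∫ s in X..Y, ph μ s * ((Real.sin s / s : ℝ) : ℂ) =
      ∫ s in X..Y, ph μ s / (s : ℂ) * ((Real.sin s : ℝ) : ℂ) := by
    congr 1
    ext s
    push_cast
    ring
  rw [h0, h]
  have h1 : ∫ s in X..Y, ph μ s * (Complex.I * μ - 1) / ((s : ℂ) ^ 2) * -((Real.cos s : ℝ) : ℂ) =
      - ∫ s in X..Y, ph μ s * (Complex.I * μ - 1) / ((s : ℂ) ^ 2) * ((Real.cos s : ℝ) : ℂ) := by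
    rw [← intervalIntegral.integral_neg]
    congr 1
    ext s
    ring
  rw [h1]
  ring

theorem integral_inv_sq {X Y : ℝ} (hX : 0 < X) (hXY : X ≤ Y) :
    ∫ s in X..Y, (s ^ 2)⁻¹ = X⁻¹ - Y⁻¹ := by
  have hne : ∀ s ∈ uIcc X Y, s ≠ 0 := by
    intro s hs
    rw [uIcc_of_le hXY] at hs
    exact (hX.trans_le hs.1).ne'
  have h : ∀ s ∈ uIcc X Y, HasDerivAt (fun s : ℝ => -(s⁻¹)) ((s ^ 2)⁻¹) s := by
    intro s hs
    have := (hasDerivAt_inv (hne s hs)).neg
    refine this.congr_deriv ?_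
    simp
  rw [intervalIntegral.integral_eq_sub_of_hasDerivAt h]
  · ring
  · apply ContinuousOn.intervalIntegrable
    intro s hs
    apply ContinuousAt.continuousWithinAt
    exact (continuousAt_id.pow 2).inv₀ (pow_ne_zero 2 (hne s hs))

theorem rem_bound (μ : ℝ) (hμ0 : 0 ≤ μ) (hμ : μ ≤ 1/100) {X Y : ℝ} (hX : 0 < X) (hXY : X ≤ Y) :
    ‖∫ s in X..Y, ph μ s * (Complex.I * μ - 1) / ((s : ℂ) ^ 2) * (Real.cos s : ℂ)‖
      ≤ 101/100 * (X⁻¹ - Y⁻¹) := by
  have hne : ∀ s ∈ uIcc X Y, s ≠ 0 := by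
    intro s hs
    rw [uIcc_of_le hXY] at hs
    exact (hX.trans_le hs.1).ne'
  have h1 : ‖∫ s in X..Y, ph μ s * (Complex.I * μ - 1) / ((s : ℂ) ^ 2) * (Real.cos s : ℂ)‖
      ≤ ∫ s in X..Y, 101/100 * (s ^ 2)⁻¹ := by
    apply intervalIntegral.norm_integral_le_of_norm_le hXY
    · filter_upwards with s hs
      rw [norm_mul, norm_div, norm_mul, norm_ph, one_mul, norm_pow, Complex.norm_real,
        Complex.norm_real, Real.norm_eq_abs, Real.norm_eq_abs, sq_abs]
      have h2 := norm_Imu μ hμ0 hμ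
      have h3 := Real.abs_cos_le_one s
      have h4 : (0:ℝ) < s ^ 2 := by
        have := hX.trans hs.1
        positivity
      calc ‖Complex.I * (μ : ℂ) - 1‖ / s ^ 2 * |Real.cos s|
          ≤ (101/100) / s ^ 2 * 1 := by gcongr
        _ = 101/100 * (s ^ 2)⁻¹ := by ring
    · apply IntervalIntegrable.const_mul
      apply ContinuousOn.intervalIntegrable
      intro s hs
      apply ContinuousAt.continuousWithinAt
      exact (continuousAt_id.pow 2).inv₀ (pow_ne_zero 2 (hne s hs))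
  rw [intervalIntegral.integral_const_mul, integral_inv_sq hX hXY] at h1
  exact h1

/-- Cauchy estimate for SS -/
theorem SS_cauchy (μ : ℝ) (hμ0 : 0 ≤ μ) (hμ : μ ≤ 1/100) {X Y : ℝ} (hX : 0 < X) (hXY : X ≤ Y) :
    ‖SS μ Y - SS μ X‖ ≤ 4 / X := by
  have hY : 0 < Y := hX.trans_le hXY
  have h1 : SS μ Y - SS μ X = ∫ s in X..Y, ph μ s * ((Real.sin s / s : ℝ) : ℂ) := by
    unfold SS
    rw [sub_eq_iff_eq_add, add_comm]
    exact (intervalIntegral.integral_add_adjacent_intervals (integrable_SS μ 0 X)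
      (integrable_SS μ X Y)).symm
  rw [h1, SS_ibp μ hX hXY]
  have h2 := rem_bound μ hμ0 hμ hX hXY
  have h3 : ‖ph μ X / X * Real.cos X‖ ≤ 1 / X := by
    rw [norm_mul, norm_div, norm_ph, Complex.norm_real, Complex.norm_real, Real.norm_eq_abs,
      Real.norm_eq_abs, abs_of_pos hX]
    have := Real.abs_cos_le_one X
    have h4 : 0 < 1 / X := by positivity
    nlinarith
  have h4 : ‖ph μ Y / Y * Real.cos Y‖ ≤ 1 / X := by
    rw [norm_mul, norm_div, norm_ph, Complex.norm_real, Complex.norm_real, Real.norm_eq_abs,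
      Real.norm_eq_abs, abs_of_pos hY]
    have h5 := Real.abs_cos_le_one Y
    have h6 : 0 < 1 / Y := by positivity
    have h7 : 1 / Y ≤ 1 / X := one_div_le_one_div_of_le hX hXY
    have h8 : 1 / Y * |Real.cos Y| ≤ 1 / Y * 1 := by gcongr
    linarith
  have h5 : 0 < Y⁻¹ := by positivity
  calc _ ≤ ‖ph μ X / X * Real.cos X - ph μ Y / Y * Real.cos Y‖ + _ := norm_add_le _ _
    _ ≤ ‖ph μ X / X * Real.cos X‖ + ‖ph μ Y / Y * Real.cos Y‖ + _ := by
        gcongr; exact norm_sub_le _ _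
    _ ≤ 1 / X + 1 / X + 101/100 * (X⁻¹ - Y⁻¹) := by gcongr
    _ ≤ 4 / X := by
        have : X⁻¹ = 1 / X := by ring
        rw [this]
        have h8 : 4 / X = 4 * (1/X) := by ring
        rw [h8]
        have : 0 < 1 / X := by positivity
        linarith



theorem ph_one (μ : ℝ) : ph μ 1 = 1 := by
  unfold ph; simp

theorem re_ph (μ s : ℝ) : (ph μ s).re = Real.cos (μ * Real.log s) := by
  unfold ph
  rw [mul_comm, Complex.exp_ofReal_mul_I_re]

theorem one_sub_abs_le_cos (x : ℝ) : 1 - |x| ≤ Real.cos x := by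
  rcases le_or_gt |x| 2 with h | h
  · have h1 := Real.one_sub_sq_div_two_le_cos (x := x)
    have h2 : x ^ 2 / 2 ≤ |x| := by
      rw [← sq_abs]
      nlinarith [abs_nonneg x]
    linarith
  · linarith [Real.neg_one_le_cos x]

theorem re_SS_one (μ : ℝ) (hμ0 : 0 ≤ μ) : 5/6 - μ ≤ (SS μ 1).re := by
  have h1 : (SS μ 1).re = ∫ s in (0:ℝ)..1, (ph μ s * ((Real.sin s / s : ℝ) : ℂ)).re := by
    unfold SS
    have := Complex.reCLM.intervalIntegral_comp_comm (integrable_SS μ 0 1)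
    simp only [Complex.reCLM_apply] at this
    exact this.symm
  have h2 : ∫ s in (0:ℝ)..1, (5/6 + μ * Real.log s) = 5/6 - μ := by
    rw [intervalIntegral.integral_add (by simp) ((intervalIntegral.intervalIntegrable_log').const_mul μ),
      intervalIntegral.integral_const_mul, integral_log]
    simp
    ring
  rw [h1, ← h2]
  apply intervalIntegral.integral_mono_on_of_le_Ioo (by norm_num)
  · exact (intervalIntegrable_const).add ((intervalIntegral.intervalIntegrable_log').const_mul μ)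
  · have := (integrable_SS μ 0 1)
    exact ⟨this.1.re, this.2.re⟩
  · intro s hs
    obtain ⟨hs0, hs1⟩ := hs
    have h3 : (ph μ s * ((Real.sin s / s : ℝ) : ℂ)).re = Real.cos (μ * Real.log s) * (Real.sin s / s) := by
      rw [Complex.re_mul_ofReal, re_ph]
    rw [h3]
    have hlog : Real.log s ≤ 0 := Real.log_nonpos hs0.le hs1.le
    have h4 := one_sub_abs_le_cos (μ * Real.log s)
    rw [abs_mul, abs_of_nonneg hμ0, abs_of_nonpos hlog] at h4
    have h5 : Real.sin s / s ≤ 1 := by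
      rw [div_le_one hs0]; exact (Real.sin_lt hs0).le
    have h6 : 5/6 ≤ Real.sin s / s := by
      rw [le_div_iff₀ hs0]
      have := Real.sin_gt_sub_cube hs0
      nlinarith [pow_pos hs0 3, pow_pos hs0 2]
    have h7 : Real.cos (μ * Real.log s) ≤ 1 := Real.cos_le_one _
    nlinarith

theorem norm_SS_ge (μ : ℝ) (hμ0 : 0 ≤ μ) (hμ : μ ≤ 1/100) {X : ℝ} (hX : 1 ≤ X) :
    1/4 ≤ ‖SS μ X‖ := by
  have hX0 : 0 < X := by linarith
  have h1 : SS μ X = SS μ 1 + ∫ s in (1:ℝ)..X, ph μ s * ((Real.sin s / s : ℝ) : ℂ) := by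
    unfold SS
    exact (intervalIntegral.integral_add_adjacent_intervals (integrable_SS μ 0 1)
      (integrable_SS μ 1 X)).symm
  rw [SS_ibp μ one_pos hX, ph_one] at h1
  have h2 := rem_bound μ hμ0 hμ one_pos hX
  set R := ∫ s in (1:ℝ)..X, ph μ s * (Complex.I * μ - 1) / ((s : ℂ) ^ 2) * (Real.cos s : ℂ) with hR
  have h3 : ‖ph μ X / X * Real.cos X‖ ≤ X⁻¹ := by
    rw [norm_mul, norm_div, norm_ph, Complex.norm_real, Complex.norm_real, Real.norm_eq_abs,
      Real.norm_eq_abs, abs_of_pos hX0, one_div]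
    have := Real.abs_cos_le_one X
    have h4 : 0 < X⁻¹ := by positivity
    nlinarith
  have h4 := re_SS_one μ hμ0
  have h5 : (SS μ X).re = (SS μ 1).re + Real.cos 1 - (ph μ X / X * Real.cos X).re + R.re := by
    rw [h1]
    simp only [Complex.add_re, Complex.sub_re]
    have : ((1:ℂ) / ((1:ℝ):ℂ) * ((Real.cos 1 : ℝ) : ℂ)).re = Real.cos 1 := by
      simp only [Complex.ofReal_one, div_one, one_mul, Complex.ofReal_re]
    rw [this]
    ring
  have h6 : (ph μ X / X * Real.cos X).re ≤ X⁻¹ := (Complex.re_le_norm _).trans h3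
  have h7 : -(101/100 * (1⁻¹ - X⁻¹)) ≤ R.re := by
    have := (Complex.abs_re_le_norm R).trans h2
    exact (abs_le.mp this).1
  have h8 : (1:ℝ)/2 ≤ Real.cos 1 := by
    have := Real.one_sub_sq_div_two_le_cos (x := 1)
    norm_num at this ⊢
    linarith
  have h9 : (SS μ X).re ≤ ‖SS μ X‖ := Complex.re_le_norm _
  have h10 : 0 < X⁻¹ := by positivity
  have h11 : X⁻¹ ≤ 1 := inv_le_one_of_one_le₀ hX
  norm_num at h7
  linarith

/-- scaling identity -/
theorem SS_scale (μ : ℝ) {N : ℝ} (hN : 0 < N) (a : ℝ) (ha : 0 ≤ a) :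
    ph μ N * ∫ t in (0:ℝ)..a, ph μ t * ((Real.sin (N * t) / t : ℝ) : ℂ) = SS μ (N * a) := by
  have h := intervalIntegral.integral_comp_mul_left (a := 0) (b := a)
    (fun s => ph μ s * ((Real.sin s / s : ℝ) : ℂ)) hN.ne'
  rw [mul_zero] at h
  have h' : SS μ (N * a) = (N : ℂ) * ∫ x in (0:ℝ)..a, ph μ (N * x) * ((Real.sin (N * x) / (N * x) : ℝ) : ℂ) := by
    rw [h]
    unfold SS
    rw [Complex.real_smul, ← mul_assoc]
    push_cast
    rw [mul_inv_cancel₀ (by exact_mod_cast hN.ne'), one_mul]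
  rw [h', ← intervalIntegral.integral_const_mul, ← intervalIntegral.integral_const_mul]
  apply intervalIntegral.integral_congr
  intro t ht
  rw [uIcc_of_le ha] at ht
  rcases eq_or_lt_of_le ht.1 with h0 | h0
  · subst h0
    simp
  · simp only
    rw [ph_mul μ hN h0]
    have htc : (t : ℂ) ≠ 0 := by exact_mod_cast h0.ne'
    have hNc : (N : ℂ) ≠ 0 := by exact_mod_cast hN.ne'
    push_cast
    field_simp

/-- the modulated bump -/
noncomputable def FF (φ : ℝ → ℝ) (N y : ℝ) : ℂ := (φ y : ℂ) * Complex.exp (Complex.I * ((N * y : ℝ) : ℂ))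

theorem norm_exp_I (a : ℝ) : ‖Complex.exp (Complex.I * (a : ℂ))‖ = 1 := by
  rw [mul_comm]; exact Complex.norm_exp_ofReal_mul_I _

/-- tail bound -/
theorem tail_bound (φ φ' : ℝ → ℝ) (hφ : ∀ y, HasDerivAt φ (φ' y) y) (hφc : Continuous φ')
    (h1 : ∀ y, |φ y| ≤ 1) (B : ℝ) (hB : ∀ y, |φ' y| ≤ B) (σ : ℝ) (hσ : |σ| = 1) (μ : ℝ)
    (hμ0 : 0 ≤ μ) (hμ : μ ≤ 1/100) {N : ℝ} (hN : 0 < N) (x : ℝ) :
    ‖∫ t in (1/2:ℝ)..3, ph μ t / t * FF φ N (x + σ * t)‖ ≤ (31/2 + 5 * B) / N := by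
  have hσ0 : σ ≠ 0 := by intro h; rw [h] at hσ; simp at hσ
  have hσc : (σ : ℂ) ≠ 0 := by exact_mod_cast hσ0
  have hNc : (N : ℂ) ≠ 0 := by exact_mod_cast hN.ne'
  have hne : ∀ t ∈ Icc (1/2:ℝ) 3, t ≠ 0 := fun t ht => by
    have : (1/2:ℝ) ≤ t := ht.1
    linarith
  have hline : ∀ t : ℝ, HasDerivAt (fun t : ℝ => x + σ * t) σ t := by
    intro t
    have := ((hasDerivAt_id t).const_mul σ).const_add x
    simpa using this
  have hu : ∀ t ∈ Icc (1/2:ℝ) 3, HasDerivAt (fun t : ℝ => ph μ t / t * ((φ (x + σ * t) : ℝ) : ℂ))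
      (ph μ t * (Complex.I * μ - 1) / ((t : ℂ) ^ 2) * ((φ (x + σ * t) : ℝ) : ℂ) +
        ph μ t / t * ((φ' (x + σ * t) * σ : ℝ) : ℂ)) t := by
    intro t ht
    have ha := hasDerivAt_phdiv μ (hne t ht)
    have hb : HasDerivAt (fun t : ℝ => φ (x + σ * t)) (φ' (x + σ * t) * σ) t :=
      (hφ (x + σ * t)).comp t (hline t)
    exact ha.mul hb.ofReal_comp
  have hv : ∀ t ∈ Icc (1/2:ℝ) 3, HasDerivAt
      (fun t : ℝ => Complex.exp (Complex.I * ((N * (x + σ * t) : ℝ) : ℂ)) / (Complex.I * N * σ))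
      (Complex.exp (Complex.I * ((N * (x + σ * t) : ℝ) : ℂ))) t := by
    intro t _
    have hb : HasDerivAt (fun t : ℝ => N * (x + σ * t)) (N * σ) t := (hline t).const_mul N
    have hc := ((hb.ofReal_comp).const_mul Complex.I).cexp
    have hd := hc.div_const (Complex.I * N * σ)
    refine hd.congr_deriv ?_
    have hI : Complex.I ≠ 0 := Complex.I_ne_zero
    push_cast
    field_simp
  have hcφ : Continuous φ := continuous_iff_continuousAt.mpr (fun y => (hφ y).continuousAt)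
  have hlin : Continuous (fun t : ℝ => x + σ * t) := by fun_prop
  have hphc : ContinuousOn (ph μ) (Icc (1/2:ℝ) 3) := (continuousOn_ph μ).mono hne
  have hofr : ContinuousOn (fun t : ℝ => (t : ℂ)) (Icc (1/2:ℝ) 3) := Complex.continuous_ofReal.continuousOn
  have hu' : ContinuousOn (fun t : ℝ => ph μ t * (Complex.I * μ - 1) / ((t : ℂ) ^ 2) * ((φ (x + σ * t) : ℝ) : ℂ) +
        ph μ t / t * ((φ' (x + σ * t) * σ : ℝ) : ℂ)) (Icc (1/2:ℝ) 3) := by
    apply ContinuousOn.add
    · apply ContinuousOn.mul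
      · apply ContinuousOn.div (hphc.mul continuousOn_const) (hofr.pow 2)
        intro t ht
        have : (t : ℂ) ≠ 0 := by exact_mod_cast hne t ht
        exact pow_ne_zero 2 this
      · exact (Complex.continuous_ofReal.comp (hcφ.comp hlin)).continuousOn
    · apply ContinuousOn.mul
      · apply ContinuousOn.div hphc hofr
        intro t ht
        exact_mod_cast hne t ht
      · exact (Complex.continuous_ofReal.comp ((hφc.comp hlin).mul continuous_const)).continuousOn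
  have hv' : ContinuousOn (fun t : ℝ => Complex.exp (Complex.I * ((N * (x + σ * t) : ℝ) : ℂ))) (Icc (1/2:ℝ) 3) := by
    apply Continuous.continuousOn
    fun_prop
  have hB0 : 0 ≤ B := (abs_nonneg _).trans (hB 0)
  have hfin := ibp_bound (a := 1/2) (b := 3) (by norm_num) hu hv hu' hv' (V := 1 / N) (M := 5 + 2 * B)
    (by
      intro t _
      rw [norm_div, norm_exp_I, norm_mul, norm_mul, Complex.norm_I, Complex.norm_real, Complex.norm_real,
        Real.norm_eq_abs, Real.norm_eq_abs, hσ, abs_of_pos hN]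
      simp)
    (by
      intro t ht
      have ht0 : (1/2:ℝ) ≤ t := ht.1
      have htp : 0 < t := by linarith
      refine (norm_add_le _ _).trans ?_
      have e1 : ‖ph μ t * (Complex.I * μ - 1) / ((t : ℂ) ^ 2) * ((φ (x + σ * t) : ℝ) : ℂ)‖ ≤ 5 := by
        rw [norm_mul, norm_div, norm_mul, norm_ph, one_mul, norm_pow, Complex.norm_real, Complex.norm_real,
          Real.norm_eq_abs, Real.norm_eq_abs, abs_of_pos htp]
        have a1 := norm_Imu μ hμ0 hμ
        have a2 := h1 (x + σ * t)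
        have a3 : (1/4:ℝ) ≤ t ^ 2 := by nlinarith
        calc ‖Complex.I * (μ:ℂ) - 1‖ / t ^ 2 * |φ (x + σ * t)| ≤ (101/100) / (1/4) * 1 := by gcongr
          _ ≤ 5 := by norm_num
      have e2 : ‖ph μ t / t * ((φ' (x + σ * t) * σ : ℝ) : ℂ)‖ ≤ 2 * B := by
        rw [norm_mul, norm_div, norm_ph, Complex.norm_real, Complex.norm_real, Real.norm_eq_abs,
          Real.norm_eq_abs, abs_mul, hσ, mul_one, abs_of_pos htp]
        have a2 := hB (x + σ * t)
        have a3 : 1 / t ≤ 2 := by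
          rw [div_le_iff₀ htp]; linarith
        exact mul_le_mul a3 a2 (abs_nonneg _) (by norm_num)
      exact add_le_add e1 e2)
  have hconv : ∫ t in (1/2:ℝ)..3, ph μ t / t * FF φ N (x + σ * t) =
      ∫ t in (1/2:ℝ)..3, (ph μ t / t * ((φ (x + σ * t) : ℝ) : ℂ)) *
        Complex.exp (Complex.I * ((N * (x + σ * t) : ℝ) : ℂ)) := by
    congr 1
    ext t
    unfold FF
    ring
  rw [hconv]
  refine hfin.trans ?_
  have e3 : ‖ph μ 3 / ((3:ℝ):ℂ) * ((φ (x + σ * 3) : ℝ) : ℂ)‖ ≤ 1 := by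
    rw [norm_mul, norm_div, norm_ph, Complex.norm_real, Complex.norm_real, Real.norm_eq_abs,
      Real.norm_eq_abs]
    have a2 := h1 (x + σ * 3)
    have a3 : |(3:ℝ)| = 3 := by norm_num
    rw [a3]
    have := abs_nonneg (φ (x + σ * 3))
    linarith
  have e4 : ‖ph μ (1/2) / ((1/2:ℝ):ℂ) * ((φ (x + σ * (1/2)) : ℝ) : ℂ)‖ ≤ 2 := by
    rw [norm_mul, norm_div, norm_ph, Complex.norm_real, Complex.norm_real, Real.norm_eq_abs,
      Real.norm_eq_abs]
    have a2 := h1 (x + σ * (1/2))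
    have a3 : |(1/2:ℝ)| = 1/2 := by norm_num
    rw [a3]
    have := abs_nonneg (φ (x + σ * (1/2)))
    linarith
  have : (‖ph μ 3 / ((3:ℝ):ℂ) * ((φ (x + σ * 3) : ℝ) : ℂ)‖ +
      ‖ph μ (1/2) / ((1/2:ℝ):ℂ) * ((φ (x + σ * (1/2)) : ℝ) : ℂ)‖ + (5 + 2 * B) * (3 - 1/2)) * (1 / N)
      ≤ (31/2 + 5 * B) * (1 / N) := by
    apply mul_le_mul_of_nonneg_right _ (by positivity)
    linarith
  calc _ ≤ (31/2 + 5 * B) * (1 / N) := this
    _ = _ := by ring

/-- the modulated bump: value near the centre -/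
theorem single_estimate (φ φ' : ℝ → ℝ) (hφ : ∀ y, HasDerivAt φ (φ' y) y) (hφc : Continuous φ')
    (h1 : ∀ y, |φ y| ≤ 1) (hone : ∀ y, |y| ≤ 1 → φ y = 1) (B : ℝ) (hB : ∀ y, |φ' y| ≤ B) (μ : ℝ)
    (hμ0 : 0 ≤ μ) (hμ : μ ≤ 1/100) {N : ℝ} (hN : 0 < N) (x : ℝ) (hx : |x| ≤ 1/2) :
    ‖ph μ N * (∫ t in (0:ℝ)..3, ph μ t * ((FF φ N (x - t) - FF φ N (x + t)) / (t : ℂ)))
      - (-2 * Complex.I) * Complex.exp (Complex.I * ((N * x : ℝ) : ℂ)) * SS μ (N / 2)‖
      ≤ (31 + 10 * B) / N := by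
  have hcφ : Continuous φ := continuous_iff_continuousAt.mpr (fun y => (hφ y).continuousAt)
  have hFc : Continuous (FF φ N) := by unfold FF; fun_prop
  set g : ℝ → ℂ := fun t => ph μ t * ((FF φ N (x - t) - FF φ N (x + t)) / (t : ℂ)) with hg
  -- on (0,1/2]
  have hcen : ∀ t ∈ uIoc (0:ℝ) (1/2), g t = (-2 * Complex.I) * Complex.exp (Complex.I * ((N * x : ℝ) : ℂ)) *
      (ph μ t * ((Real.sin (N * t) / t : ℝ) : ℂ)) := by
    intro t ht
    rw [uIoc_of_le (by norm_num)] at ht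
    have ht0 : 0 < t := ht.1
    have ht1 : t ≤ 1/2 := ht.2
    have hx' := abs_le.mp hx
    have e1 : φ (x - t) = 1 := hone _ (abs_le.mpr ⟨by linarith [hx'.1], by linarith [hx'.2]⟩)
    have e2 : φ (x + t) = 1 := hone _ (abs_le.mpr ⟨by linarith [hx'.1], by linarith [hx'.2]⟩)
    have e3 : FF φ N (x - t) - FF φ N (x + t) =
        (-2 * Complex.I) * Complex.exp (Complex.I * ((N * x : ℝ) : ℂ)) * ((Real.sin (N * t) : ℝ) : ℂ) := by
      unfold FF
      rw [e1, e2]
      have e4 : Complex.I * ((N * (x - t) : ℝ) : ℂ) = Complex.I * ((N * x : ℝ) : ℂ) + (-(((N * t : ℝ) : ℂ)) * Complex.I) := by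
        push_cast; ring
      have e5 : Complex.I * ((N * (x + t) : ℝ) : ℂ) = Complex.I * ((N * x : ℝ) : ℂ) + (((N * t : ℝ) : ℂ)) * Complex.I := by
        push_cast; ring
      rw [e4, e5, Complex.exp_add, Complex.exp_add, Complex.ofReal_sin, Complex.sin]
      have hI : Complex.I ^ 2 = -1 := Complex.I_sq
      have : (-2 * Complex.I) * Complex.exp (Complex.I * ((N * x : ℝ) : ℂ)) *
        ((Complex.exp (-((N * t : ℝ) : ℂ) * Complex.I) - Complex.exp (((N * t : ℝ) : ℂ) * Complex.I)) * Complex.I / 2)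
        = -(Complex.I ^ 2) * (Complex.exp (Complex.I * ((N * x : ℝ) : ℂ)) *
        ((Complex.exp (-((N * t : ℝ) : ℂ) * Complex.I) - Complex.exp (((N * t : ℝ) : ℂ) * Complex.I)))) := by ring
      rw [this, hI]
      push_cast
      ring
    have htc : (t : ℂ) ≠ 0 := by exact_mod_cast ht0.ne'
    simp only [hg]
    rw [e3]
    push_cast
    ring
  have hbase : IntervalIntegrable (fun t => ph μ t * ((Real.sin (N * t) / t : ℝ) : ℂ)) volume 0 (1/2) := by
    have hm : Measurable (fun t => ph μ t * ((Real.sin (N * t) / t : ℝ) : ℂ)) :=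
      (measurable_ph μ).mul (Complex.measurable_ofReal.comp
        ((Real.measurable_sin.comp (measurable_const.mul measurable_id)).div measurable_id))
    apply (intervalIntegrable_const (c := N)).mono_fun hm.aestronglyMeasurable
    filter_upwards with s
    rw [norm_mul, norm_ph, one_mul, Complex.norm_real, Real.norm_eq_abs, Real.norm_eq_abs, abs_of_pos hN]
    rcases eq_or_ne s 0 with h | h
    · rw [h]; simp; exact hN.le
    · rw [abs_div, div_le_iff₀ (abs_pos.mpr h)]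
      have := Real.abs_sin_le_abs (x := N * s)
      rwa [abs_mul, abs_of_pos hN] at this
  have hi1 : IntervalIntegrable g volume 0 (1/2) := by
    apply (hbase.const_mul ((-2 * Complex.I) * Complex.exp (Complex.I * ((N * x : ℝ) : ℂ)))).congr
    intro t ht
    exact (hcen t ht).symm
  have hne : ∀ t ∈ Icc (1/2:ℝ) 3, t ≠ 0 := fun t ht => by
    have : (1/2:ℝ) ≤ t := ht.1
    linarith
  have hphd : ContinuousOn (fun t : ℝ => ph μ t / (t : ℂ)) (Icc (1/2:ℝ) 3) :=
    ContinuousOn.div ((continuousOn_ph μ).mono hne) Complex.continuous_ofReal.continuousOn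
      (fun t ht => by exact_mod_cast hne t ht)
  have hc1 : ContinuousOn (fun t : ℝ => ph μ t / (t : ℂ) * FF φ N (x + (-1) * t)) (uIcc (1/2:ℝ) 3) := by
    rw [uIcc_of_le (by norm_num)]
    exact hphd.mul (hFc.comp (by fun_prop)).continuousOn
  have hc2 : ContinuousOn (fun t : ℝ => ph μ t / (t : ℂ) * FF φ N (x + 1 * t)) (uIcc (1/2:ℝ) 3) := by
    rw [uIcc_of_le (by norm_num)]
    exact hphd.mul (hFc.comp (by fun_prop)).continuousOn
  have hgeq : g = fun t : ℝ => ph μ t / (t : ℂ) * FF φ N (x + (-1) * t) - ph μ t / (t : ℂ) * FF φ N (x + 1 * t) := by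
    ext t
    simp only [hg, neg_one_mul, one_mul, ← sub_eq_add_neg]
    ring
  have hi2 : IntervalIntegrable g volume (1/2) 3 := by
    rw [hgeq]
    exact (hc1.intervalIntegrable).sub (hc2.intervalIntegrable)
  have hsplit : ∫ t in (0:ℝ)..3, g t = (∫ t in (0:ℝ)..(1/2), g t) + ∫ t in (1/2:ℝ)..3, g t :=
    (intervalIntegral.integral_add_adjacent_intervals hi1 hi2).symm
  have hfirst : ph μ N * ∫ t in (0:ℝ)..(1/2), g t =
      (-2 * Complex.I) * Complex.exp (Complex.I * ((N * x : ℝ) : ℂ)) * SS μ (N / 2) := by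
    have e1 : ∫ t in (0:ℝ)..(1/2), g t = ∫ t in (0:ℝ)..(1/2),
        (-2 * Complex.I) * Complex.exp (Complex.I * ((N * x : ℝ) : ℂ)) *
      (ph μ t * ((Real.sin (N * t) / t : ℝ) : ℂ)) :=
      intervalIntegral.integral_congr_ae (Filter.Eventually.of_forall hcen)
    rw [e1, intervalIntegral.integral_const_mul, ← mul_assoc, mul_comm (ph μ N), mul_assoc, 
      SS_scale μ hN (1/2) (by norm_num)]
    congr 2
    ring
  have hsecond : ‖ph μ N * ∫ t in (1/2:ℝ)..3, g t‖ ≤ (31 + 10 * B) / N := by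
    rw [norm_mul, norm_ph, one_mul, hgeq,
      intervalIntegral.integral_sub hc1.intervalIntegrable hc2.intervalIntegrable]
    have t1 := tail_bound φ φ' hφ hφc h1 B hB (-1) (by norm_num) μ hμ0 hμ hN x
    have t2 := tail_bound φ φ' hφ hφc h1 B hB 1 (by norm_num) μ hμ0 hμ hN x
    refine (norm_sub_le _ _).trans ?_
    calc _ ≤ (31/2 + 5 * B) / N + (31/2 + 5 * B) / N := add_le_add t1 t2
      _ = _ := by ring
  rw [hsplit, mul_add, hfirst, add_sub_cancel_left]
  exact hsecond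

/-- frequencies -/
noncomputable def NN (N0 : ℝ) (j : ℕ) : ℝ := N0 * Real.exp (1000 * 100 ^ j)

theorem NN_ge {N0 : ℝ} (h : 0 < N0) (j : ℕ) : N0 ≤ NN N0 j := by
  unfold NN
  have : 1 ≤ Real.exp (1000 * 100 ^ j) := Real.one_le_exp (by positivity)
  nlinarith

theorem NN_pos {N0 : ℝ} (h : 0 < N0) (j : ℕ) : 0 < NN N0 j := h.trans_le (NN_ge h j)

theorem ph_NN (μ : ℝ) {N0 : ℝ} (h : 0 < N0) (j : ℕ) :
    ph μ (NN N0 j) = ph μ N0 * Complex.exp (Complex.I * ((μ * (1000 * 100 ^ j) : ℝ) : ℂ)) := by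
  unfold NN
  rw [ph_mul μ h (Real.exp_pos _)]
  congr 1
  unfold ph
  rw [Real.log_exp]

/-- the test function -/
noncomputable def ff (φ : ℝ → ℝ) (N0 : ℝ) (m : ℕ) (y : ℝ) : ℂ := ∑ j ∈ Finset.range m, FF φ (NN N0 j) y

theorem integrable_g (L : ℝ) (F : ℝ → ℂ) (hF : Continuous F)
    (hL : ∀ x y, ‖F x - F y‖ ≤ L * |x - y|) (θ : ℝ → ℂ) (hθm : Measurable θ) (hθ : ∀ t, ‖θ t‖ = 1)
    (x a b : ℝ) :
    IntervalIntegrable (fun t => θ t * ((F (x - t) - F (x + t)) / (t : ℂ))) volume a b := by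
  have hm : Measurable (fun t => θ t * ((F (x - t) - F (x + t)) / (t : ℂ))) := by
    apply hθm.mul
    apply Measurable.div _ Complex.measurable_ofReal
    exact ((hF.comp (by fun_prop)).sub (hF.comp (by fun_prop))).measurable
  apply (intervalIntegrable_const (c := 2 * L)).mono_fun hm.aestronglyMeasurable
  filter_upwards with t
  have hL0 : 0 ≤ L := by
    have := (norm_nonneg _).trans (hL 1 0)
    simpa using this
  rw [norm_mul, hθ, one_mul, norm_div, Complex.norm_real, Real.norm_eq_abs, Real.norm_eq_abs,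
    abs_of_nonneg (by positivity : 0 ≤ 2 * L)]
  rcases eq_or_ne t 0 with h | h
  · rw [h]; simp; exact hL0
  · rw [div_le_iff₀ (abs_pos.mpr h)]
    refine (hL _ _).trans ?_
    have : |x - t - (x + t)| = 2 * |t| := by
      rw [show x - t - (x + t) = -(2 * t) by ring, abs_neg, abs_mul]; norm_num
    rw [this]
    linarith

/-- lower bound for the limiting operator -/
theorem T_lower (φ φ' : ℝ → ℝ) (hφ : ∀ y, HasDerivAt φ (φ' y) y) (hφc : Continuous φ')
    (h1 : ∀ y, |φ y| ≤ 1) (hone : ∀ y, |y| ≤ 1 → φ y = 1) (B : ℝ) (hB : ∀ y, |φ' y| ≤ B)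
    {N0 : ℝ} (hN0 : 2 ≤ N0) (hN1 : 5 * (47 + 10 * B) ≤ N0) (m : ℕ) (x : ℝ) (hx : |x| ≤ 1/2) :
    ∃ μ : ℝ, 0 ≤ μ ∧ μ ≤ 1/100 ∧
      (m : ℝ) / 4 ≤ ‖∫ t in (0:ℝ)..3, ph μ t * ((ff φ N0 m (x - t) - ff φ N0 m (x + t)) / (t : ℂ))‖ := by
  have hB0 : 0 ≤ B := (abs_nonneg _).trans (hB 0)
  have hN0' : 0 < N0 := by linarith
  obtain ⟨μ, hμ0, hμ, hal⟩ := align' m (fun j => NN N0 j * x)
  refine ⟨μ, hμ0, hμ, ?_⟩
  have hcφ : Continuous φ := continuous_iff_continuousAt.mpr (fun y => (hφ y).continuousAt)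
  -- Lipschitz bound for each piece, for integrability
  have hFL : ∀ N : ℝ, ∃ L, ∀ x y, ‖FF φ N x - FF φ N y‖ ≤ L * |x - y| := by
    intro N
    have hd : ∀ y, HasDerivAt (FF φ N) (((φ' y : ℝ) : ℂ) * Complex.exp (Complex.I * ((N * y : ℝ) : ℂ)) +
        (φ y : ℂ) * (Complex.exp (Complex.I * ((N * y : ℝ) : ℂ)) * (Complex.I * (N : ℂ)))) y := by
      intro y
      have ha := (hφ y).ofReal_comp
      have hb : HasDerivAt (fun y : ℝ => Complex.exp (Complex.I * ((N * y : ℝ) : ℂ)))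
          (Complex.exp (Complex.I * ((N * y : ℝ) : ℂ)) * (Complex.I * (N : ℂ))) y := by
        have hc : HasDerivAt (fun y : ℝ => N * y) N y := by
          simpa using (hasDerivAt_id y).const_mul N
        exact ((hc.ofReal_comp).const_mul Complex.I).cexp
      exact ha.mul hb
    refine ⟨B + |N|, fun x y => ?_⟩
    have := Convex.norm_image_sub_le_of_norm_hasDerivWithin_le (f := FF φ N)
      (s := univ) (C := B + |N|) (fun z _ => (hd z).hasDerivWithinAt) (by
        intro z _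
        refine (norm_add_le _ _).trans ?_
        rw [norm_mul, norm_mul, norm_mul, norm_mul, norm_exp_I, Complex.norm_I, Complex.norm_real,
          Complex.norm_real, Complex.norm_real, Real.norm_eq_abs, Real.norm_eq_abs, Real.norm_eq_abs]
        have a1 := hB z
        have a2 := h1 z
        have a3 := abs_nonneg N
        nlinarith [abs_nonneg (φ z), abs_nonneg (φ' z)]) convex_univ (mem_univ y) (mem_univ x)
    simpa using this
  have hFc : ∀ N, Continuous (FF φ N) := by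
    intro N; unfold FF; fun_prop
  set T := ∫ t in (0:ℝ)..3, ph μ t * ((ff φ N0 m (x - t) - ff φ N0 m (x + t)) / (t : ℂ)) with hT
  set Tj : ℕ → ℂ := fun j => ∫ t in (0:ℝ)..3, ph μ t *
    ((FF φ (NN N0 j) (x - t) - FF φ (NN N0 j) (x + t)) / (t : ℂ)) with hTj
  have hsum : T = ∑ j ∈ Finset.range m, Tj j := by
    rw [hT, hTj, ← intervalIntegral.integral_finsetSum]
    · congr 1
      ext t
      unfold ff
      rw [← Finset.sum_sub_distrib, Finset.sum_div, Finset.mul_sum]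
    · intro j _
      obtain ⟨L, hL⟩ := hFL (NN N0 j)
      exact integrable_g L _ (hFc _) hL (ph μ) (measurable_ph μ) (norm_ph μ) x 0 3
  set e : ℕ → ℂ := fun j => Complex.exp (Complex.I * ((NN N0 j * x - μ * (1000 * 100 ^ j) : ℝ) : ℂ)) with he
  have hj : ∀ j, ‖ph μ N0 * Tj j - (-2 * Complex.I) * e j * SS μ (N0 / 2)‖ ≤ (47 + 10 * B) / N0 := by
    intro j
    have hNj := NN_pos hN0' j
    have hNg := NN_ge hN0' j
    have s1 := single_estimate φ φ' hφ hφc h1 hone B hB μ hμ0 hμ hNj x hx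
    rw [ph_NN μ hN0'] at s1
    set c := Complex.exp (Complex.I * ((μ * (1000 * 100 ^ j) : ℝ) : ℂ)) with hc
    have hcn : ‖c‖ = 1 := norm_exp_I _
    have hc0 : c ≠ 0 := by intro h; rw [h] at hcn; simp at hcn
    have hec : Complex.exp (Complex.I * ((NN N0 j * x : ℝ) : ℂ)) = c * e j := by
      rw [hc, he]
      simp only
      rw [← Complex.exp_add]
      congr 1
      push_cast
      ring
    rw [hec] at s1
    have s2 : ‖ph μ N0 * Tj j - (-2 * Complex.I) * e j * SS μ (NN N0 j / 2)‖ ≤ (31 + 10 * B) / NN N0 j := by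
      have : ph μ N0 * c * Tj j - -2 * Complex.I * (c * e j) * SS μ (NN N0 j / 2)
          = c * (ph μ N0 * Tj j - (-2 * Complex.I) * e j * SS μ (NN N0 j / 2)) := by ring
      rw [hTj] at this ⊢
      simp only at this ⊢
      rw [this, norm_mul, hcn, one_mul] at s1
      exact s1
    have s3 := SS_cauchy μ hμ0 hμ (X := N0 / 2) (Y := NN N0 j / 2) (by linarith) (by linarith)
    have hen : ‖e j‖ = 1 := norm_exp_I _
    have s4 : ‖(-2 * Complex.I) * e j * SS μ (NN N0 j / 2) - (-2 * Complex.I) * e j * SS μ (N0 / 2)‖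
        ≤ 16 / N0 := by
      rw [← mul_sub, norm_mul, norm_mul, norm_mul, hen, Complex.norm_I]
      norm_num
      calc 2 * ‖SS μ (NN N0 j / 2) - SS μ (N0 / 2)‖ ≤ 2 * (4 / (N0 / 2)) := by gcongr
        _ = 16 / N0 := by field_simp; ring
    have s5 : (31 + 10 * B) / NN N0 j ≤ (31 + 10 * B) / N0 := by
      apply div_le_div_of_nonneg_left (by linarith) hN0' hNg
    calc ‖ph μ N0 * Tj j - (-2 * Complex.I) * e j * SS μ (N0 / 2)‖
        ≤ ‖ph μ N0 * Tj j - (-2 * Complex.I) * e j * SS μ (NN N0 j / 2)‖ +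
          ‖(-2 * Complex.I) * e j * SS μ (NN N0 j / 2) - (-2 * Complex.I) * e j * SS μ (N0 / 2)‖ := by
          refine le_trans (le_of_eq ?_) (norm_add_le _ _)
          congr 1; ring
      _ ≤ (31 + 10 * B) / N0 + 16 / N0 := add_le_add (s2.trans s5) s4
      _ = _ := by ring
  have htot : ‖ph μ N0 * T - (-2 * Complex.I) * (∑ j ∈ Finset.range m, e j) * SS μ (N0 / 2)‖
      ≤ m * ((47 + 10 * B) / N0) := by
    have : ph μ N0 * T - (-2 * Complex.I) * (∑ j ∈ Finset.range m, e j) * SS μ (N0 / 2) =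
        ∑ j ∈ Finset.range m, (ph μ N0 * Tj j - (-2 * Complex.I) * e j * SS μ (N0 / 2)) := by
      rw [Finset.sum_sub_distrib, hsum, Finset.mul_sum, Finset.mul_sum, Finset.sum_mul]
    rw [this]
    refine (norm_sum_le _ _).trans ?_
    calc ∑ j ∈ Finset.range m, ‖ph μ N0 * Tj j - (-2 * Complex.I) * e j * SS μ (N0 / 2)‖
        ≤ ∑ j ∈ Finset.range m, (47 + 10 * B) / N0 := Finset.sum_le_sum (fun j _ => hj j)
      _ = _ := by simp
  have hre : (9/10 : ℝ) * m ≤ ‖∑ j ∈ Finset.range m, e j‖ := by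
    have h2 : (9/10 : ℝ) * m ≤ (∑ j ∈ Finset.range m, e j).re := by
      rw [Complex.re_sum]
      calc (9/10 : ℝ) * m = ∑ j ∈ Finset.range m, (9/10 : ℝ) := by simp; ring
        _ ≤ ∑ j ∈ Finset.range m, (e j).re := by
            apply Finset.sum_le_sum
            intro j hjm
            obtain ⟨n, hn⟩ := hal j (Finset.mem_range.mp hjm)
            have h3 : (e j).re = Real.cos (NN N0 j * x - μ * (1000 * 100 ^ j)) := by
              simp only [he]
              rw [mul_comm, Complex.exp_ofReal_mul_I_re]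
            have h4 : Real.cos (NN N0 j * x - μ * (1000 * 100 ^ j)) =
                Real.cos (μ * (1000 * 100 ^ j) - NN N0 j * x - 2 * Real.pi * n) := by
              rw [← Real.cos_neg, show μ * (1000 * 100 ^ j) - NN N0 j * x - 2 * Real.pi * n
                = -(NN N0 j * x - μ * (1000 * 100 ^ j)) - n * (2 * Real.pi) by ring,
                Real.cos_sub_int_mul_two_pi]
            rw [h3, h4]
            have h5 := one_sub_abs_le_cos (μ * (1000 * 100 ^ j) - NN N0 j * x - 2 * Real.pi * n)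
            linarith
    exact h2.trans (Complex.re_le_norm _)
  have hS := norm_SS_ge μ hμ0 hμ (X := N0 / 2) (by linarith)
  have hprod : (9/20 : ℝ) * m ≤ ‖(-2 * Complex.I) * (∑ j ∈ Finset.range m, e j) * SS μ (N0 / 2)‖ := by
    rw [norm_mul, norm_mul, norm_mul, Complex.norm_I]
    norm_num
    have hm0 : (0:ℝ) ≤ m := Nat.cast_nonneg m
    calc (9/20 : ℝ) * m = 2 * (9/10 * m) * (1/4) := by ring
      _ ≤ 2 * ‖∑ j ∈ Finset.range m, e j‖ * ‖SS μ (N0 / 2)‖ := by gcongr
  have hTn : ‖ph μ N0 * T‖ = ‖T‖ := by rw [norm_mul, norm_ph, one_mul]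
  have herr : (m:ℝ) * ((47 + 10 * B) / N0) ≤ m * (1/5) := by
    apply mul_le_mul_of_nonneg_left _ (Nat.cast_nonneg m)
    rw [div_le_iff₀ hN0']
    linarith
  have htri := norm_sub_norm_le ((-2 * Complex.I) * (∑ j ∈ Finset.range m, e j) * SS μ (N0 / 2)) (ph μ N0 * T)
  rw [norm_sub_rev] at htri
  rw [hTn] at htri
  linarith

theorem NN_gap {N0 : ℝ} (h : 0 < N0) {j k : ℕ} (hjk : j ≠ k) : N0 ≤ |NN N0 j - NN N0 k| := by
  wlog hlt : k < j with H
  · rw [abs_sub_comm]
    exact H h (Ne.symm hjk) (lt_of_le_of_ne (not_lt.mp hlt) hjk)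
  have h1 : (1000 * 100 ^ k : ℝ) + 1 ≤ 1000 * 100 ^ j := by
    have h2 : (100:ℝ) ^ (k + 1) ≤ 100 ^ j := pow_le_pow_right₀ (by norm_num) hlt
    have h3 : (1:ℝ) ≤ 100 ^ k := one_le_pow₀ (by norm_num)
    rw [pow_succ] at h2
    nlinarith
  have h4 : Real.exp (1000 * 100 ^ k) + 1 ≤ Real.exp (1000 * 100 ^ j) := by
    have h5 : Real.exp (1000 * 100 ^ k + 1) ≤ Real.exp (1000 * 100 ^ j) := Real.exp_le_exp.mpr h1
    rw [Real.exp_add] at h5
    have h6 : (2:ℝ) ≤ Real.exp 1 := by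
      have := Real.add_one_le_exp (1:ℝ); linarith
    have h7 : 1 ≤ Real.exp (1000 * 100 ^ k) := Real.one_le_exp (by positivity)
    nlinarith
  unfold NN
  rw [← mul_sub, abs_mul, abs_of_pos h]
  rw [abs_of_nonneg (by linarith)]
  nlinarith

theorem cos_int (a : ℝ) (ha : a ≠ 0) : ∫ y in (-2:ℝ)..2, Real.cos (a * y) = 2 * Real.sin (2 * a) / a := by
  rw [intervalIntegral.integral_comp_mul_left (fun y => Real.cos y) ha, integral_cos]
  rw [show a * -2 = -(2 * a) by ring, Real.sin_neg, show a * 2 = 2 * a by ring, smul_eq_mul]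
  field_simp
  ring

/-- L² bound for the exponential sum -/
theorem E_bound {N0 : ℝ} (h : 0 < N0) (m : ℕ) (hm : (m : ℝ) ≤ N0) :
    ∫ y in (-2:ℝ)..2, ‖∑ j ∈ Finset.range m, Complex.exp (Complex.I * ((NN N0 j * y : ℝ) : ℂ))‖ ^ 2 ≤ 6 * m := by
  have h1 : ∀ y : ℝ, ‖∑ j ∈ Finset.range m, Complex.exp (Complex.I * ((NN N0 j * y : ℝ) : ℂ))‖ ^ 2 =
      ∑ j ∈ Finset.range m, ∑ k ∈ Finset.range m, Real.cos ((NN N0 j - NN N0 k) * y) := by
    intro y
    have hz : ∀ z : ℂ, ‖z‖ ^ 2 = (z * (starRingEnd ℂ) z).re := by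
      intro z
      rw [Complex.mul_conj, Complex.ofReal_re, Complex.normSq_eq_norm_sq]
    rw [hz, map_sum, Finset.sum_mul_sum, Complex.re_sum]
    apply Finset.sum_congr rfl
    intro j _
    rw [Complex.re_sum]
    apply Finset.sum_congr rfl
    intro k _
    rw [← Complex.exp_conj, ← Complex.exp_add]
    have : Complex.I * ((NN N0 j * y : ℝ) : ℂ) + (starRingEnd ℂ) (Complex.I * ((NN N0 k * y : ℝ) : ℂ)) =
        (((NN N0 j - NN N0 k) * y : ℝ) : ℂ) * Complex.I := by
      rw [map_mul, Complex.conj_I, Complex.conj_ofReal]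
      push_cast
      ring
    rw [this, Complex.exp_ofReal_mul_I_re]
  simp_rw [h1]
  rw [intervalIntegral.integral_finsetSum]
  · have h2 : ∀ j ∈ Finset.range m, ∫ y in (-2:ℝ)..2, ∑ k ∈ Finset.range m, Real.cos ((NN N0 j - NN N0 k) * y)
        ≤ 4 + m * (2 / N0) := by
      intro j hj
      rw [intervalIntegral.integral_finsetSum]
      · have h3 : ∀ k ∈ Finset.range m, ∫ y in (-2:ℝ)..2, Real.cos ((NN N0 j - NN N0 k) * y) ≤
            (if k = j then (4:ℝ) else 0) + 2 / N0 := by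
          intro k _
          by_cases hkj : k = j
          · subst hkj
            rw [if_pos rfl]
            simp only [sub_self, zero_mul, Real.cos_zero]
            have : 0 < 2 / N0 := by positivity
            rw [intervalIntegral.integral_const]
            simp
            linarith
          · rw [if_neg hkj]
            have hgap := NN_gap h (Ne.symm hkj : j ≠ k)
            have hne : NN N0 j - NN N0 k ≠ 0 := by
              intro h0; rw [h0] at hgap; simp at hgap; linarith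
            rw [cos_int _ hne, zero_add]
            refine (le_abs_self _).trans ?_
            rw [abs_div, abs_mul]
            have h5 : |Real.sin (2 * (NN N0 j - NN N0 k))| ≤ 1 := Real.abs_sin_le_one _
            have h6 : |(2:ℝ)| = 2 := by norm_num
            rw [h6]
            calc 2 * |Real.sin (2 * (NN N0 j - NN N0 k))| / |NN N0 j - NN N0 k| ≤ 2 * 1 / N0 := by gcongr
              _ = 2 / N0 := by ring
        refine (Finset.sum_le_sum h3).trans ?_
        rw [Finset.sum_add_distrib, Finset.sum_ite_eq' (Finset.range m) j, if_pos hj]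
        simp
      · intro k _
        apply Continuous.intervalIntegrable
        fun_prop
    refine (Finset.sum_le_sum h2).trans ?_
    rw [Finset.sum_const, Finset.card_range, nsmul_eq_mul]
    have h7 : (m:ℝ) * (2 / N0) ≤ 2 := by
      rw [mul_div_assoc', div_le_iff₀ h]
      linarith
    have h8 : (0:ℝ) ≤ m := Nat.cast_nonneg m
    nlinarith
  · intro j _
    apply Continuous.intervalIntegrable
    fun_prop

/-- L² bound for the test function -/
theorem ff_L2 (φ : ℝ → ℝ) (h1 : ∀ y, |φ y| ≤ 1) (h0 : ∀ y, 2 ≤ |y| → φ y = 0)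
    {N0 : ℝ} (h : 0 < N0) (m : ℕ) (hm : (m : ℝ) ≤ N0) :
    ∫⁻ y, ‖ff φ N0 m y‖ₑ ^ 2 ≤ ENNReal.ofReal (6 * m) := by
  set E : ℝ → ℂ := fun y => ∑ j ∈ Finset.range m, Complex.exp (Complex.I * ((NN N0 j * y : ℝ) : ℂ)) with hE
  have hEc : Continuous E := by rw [hE]; fun_prop
  have hffE : ∀ y, ff φ N0 m y = (φ y : ℂ) * E y := by
    intro y
    simp only [ff, FF, hE, Finset.mul_sum]
  have hbd : ∀ y, ‖ff φ N0 m y‖ₑ ^ 2 ≤ (Ioc (-2:ℝ) 2).indicator (fun y => ENNReal.ofReal (‖E y‖ ^ 2)) y := by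
    intro y
    by_cases hy : y ∈ Ioc (-2:ℝ) 2
    · rw [indicator_of_mem hy, hffE, ← ofReal_norm, ← ENNReal.ofReal_pow (norm_nonneg _)]
      apply ENNReal.ofReal_le_ofReal
      rw [norm_mul, Complex.norm_real, Real.norm_eq_abs]
      have h2 := h1 y
      have h3 : |φ y| * ‖E y‖ ≤ ‖E y‖ := by
        have := norm_nonneg (E y)
        nlinarith
      exact pow_le_pow_left₀ (by positivity) h3 2
    · have hy2 : 2 ≤ |y| := by
        rw [le_abs]
        by_contra hcon
        push Not at hcon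
        exact hy ⟨by linarith [hcon.2], by linarith [hcon.1]⟩
      rw [hffE, h0 y hy2]
      simp
  calc ∫⁻ y, ‖ff φ N0 m y‖ₑ ^ 2 ≤ ∫⁻ y, (Ioc (-2:ℝ) 2).indicator (fun y => ENNReal.ofReal (‖E y‖ ^ 2)) y :=
        lintegral_mono hbd
    _ = ∫⁻ y in Ioc (-2:ℝ) 2, ENNReal.ofReal (‖E y‖ ^ 2) := lintegral_indicator measurableSet_Ioc _
    _ = ENNReal.ofReal (∫ y in Ioc (-2:ℝ) 2, ‖E y‖ ^ 2) := by
        rw [ofReal_integral_eq_lintegral_ofReal]
        · have : IntegrableOn (fun y => ‖E y‖ ^ 2) (Icc (-2:ℝ) 2) := by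
            apply ContinuousOn.integrableOn_Icc
            exact (hEc.norm.pow 2).continuousOn
          exact this.mono_set Ioc_subset_Icc_self
        · filter_upwards with y
          positivity
    _ ≤ ENNReal.ofReal (6 * m) := by
        apply ENNReal.ofReal_le_ofReal
        have := E_bound h m hm
        rw [intervalIntegral.integral_of_le (by norm_num)] at this
        exact this

theorem exp_sub_bound {u : ℝ} (hu : u ≤ 1) : |Real.exp u - 1 - u| ≤ u ^ 2 := by
  rcases le_or_gt |u| 1 with h | h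
  · exact Real.abs_exp_sub_one_sub_id_le h
  · have hneg : u < -1 := by
      rcases lt_abs.mp h with h1 | h1
      · linarith
      · linarith
    have h2 := Real.add_one_le_exp u
    have h3 : Real.exp u ≤ 1 := Real.exp_le_one_iff.mpr (by linarith)
    rw [abs_of_nonneg (by linarith)]
    nlinarith

/-- comparison of the phases -/
theorem phase_compare {ε t : ℝ} (hε : 0 < ε) (hε1 : ε ≤ 1/2) (ht : 0 < t) (ht3 : t ≤ 3) :
    |(t ^ ε - 1) / ε - Real.log t| ≤ ε * (16 * t ^ (-(1/2) : ℝ) + 4) := by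
  have hlog : Real.log t ≤ 2 := by
    have := Real.log_le_sub_one_of_pos ht
    linarith
  have h1 : t ^ ε = Real.exp (ε * Real.log t) := by
    rw [Real.rpow_def_of_pos ht, mul_comm]
  have hu : ε * Real.log t ≤ 1 := by nlinarith
  have h2 := exp_sub_bound hu
  have h3 : (t ^ ε - 1) / ε - Real.log t = (Real.exp (ε * Real.log t) - 1 - ε * Real.log t) / ε := by
    rw [h1]; field_simp
  rw [h3, abs_div, abs_of_pos hε, div_le_iff₀ hε]
  refine h2.trans ?_
  have h4 : (Real.log t) ^ 2 ≤ 16 * t ^ (-(1/2) : ℝ) + 4 := by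
    rcases le_or_gt t 1 with h | h
    · have h5 := Real.abs_log_mul_self_rpow_lt t (1/4) ht h (by norm_num)
      have h6 : |Real.log t| * t ^ (1/4 : ℝ) < 4 := by
        rw [abs_mul, abs_of_pos (Real.rpow_pos_of_pos ht _)] at h5
        norm_num at h5 ⊢
        exact h5
      have h7 : (t ^ (1/4 : ℝ)) ^ 2 = t ^ (1/2 : ℝ) := by
        rw [← Real.rpow_natCast, ← Real.rpow_mul ht.le]; norm_num
      have h8 : (Real.log t) ^ 2 * t ^ (1/2 : ℝ) ≤ 16 := by
        rw [← h7, ← sq_abs (Real.log t), ← mul_pow]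
        have h9 : 0 ≤ |Real.log t| * t ^ (1/4 : ℝ) := by positivity
        nlinarith
      have h10 : t ^ (-(1/2) : ℝ) = (t ^ (1/2 : ℝ))⁻¹ := Real.rpow_neg ht.le _
      have h11 : 0 < t ^ (1/2 : ℝ) := Real.rpow_pos_of_pos ht _
      rw [h10]
      have h12 : (Real.log t) ^ 2 ≤ 16 * (t ^ (1/2 : ℝ))⁻¹ := by
        rw [← div_eq_mul_inv, le_div_iff₀ h11]
        exact h8
      linarith
    · have h5 : 0 ≤ Real.log t := Real.log_nonneg h.le
      have h6 : 0 < t ^ (-(1/2) : ℝ) := Real.rpow_pos_of_pos ht _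
      nlinarith
  calc (ε * Real.log t) ^ 2 = ε * ε * (Real.log t) ^ 2 := by ring
    _ ≤ ε * ε * (16 * t ^ (-(1/2) : ℝ) + 4) := by gcongr
    _ = ε * (16 * t ^ (-(1/2) : ℝ) + 4) * ε := by ring

theorem norm_exp_I_sub_exp_I_le (a b : ℝ) :
    ‖Complex.exp (Complex.I * (a : ℂ)) - Complex.exp (Complex.I * (b : ℂ))‖ ≤ |a - b| := by
  have h1 : Complex.exp (Complex.I * (a : ℂ)) - Complex.exp (Complex.I * (b : ℂ)) =
      Complex.exp (Complex.I * (b : ℂ)) * (Complex.exp (Complex.I * ((a - b : ℝ) : ℂ)) - 1) := by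
    rw [mul_sub, ← Complex.exp_add, mul_one]
    congr 2
    push_cast
    ring
  rw [h1, norm_mul, norm_exp_I, one_mul]
  exact Real.norm_exp_I_mul_ofReal_sub_one_le

/-- comparison of the oscillatory integral with phase `(μ/ε) t^ε` and the one with phase `μ log t` -/
theorem compare_integrals {ε : ℝ} (hε : 0 < ε) (hε1 : ε ≤ 1/2) {μ : ℝ} (hμ0 : 0 ≤ μ) (hμ : μ ≤ 1/100)
    (F : ℝ → ℂ) (hF : Continuous F) {L : ℝ} (hL : ∀ x y, ‖F x - F y‖ ≤ L * |x - y|) (x : ℝ) :
    ‖∫ t in (0:ℝ)..3, ph μ t * ((F (x - t) - F (x + t)) / (t : ℂ))‖ ≤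
    ‖∫ t in (0:ℝ)..3, Complex.exp (Complex.I * ((μ / ε * t ^ ε : ℝ) : ℂ)) *
      ((F (x - t) - F (x + t)) / (t : ℂ))‖ +
      ε * (L * ∫ t in (0:ℝ)..3, (16 * t ^ (-(1/2) : ℝ) + 4)) := by
  have hL0 : 0 ≤ L := by
    have := (norm_nonneg _).trans (hL 1 0)
    simpa using this
  set c := Complex.exp (Complex.I * ((μ / ε : ℝ) : ℂ)) with hc
  have hcn : ‖c‖ = 1 := norm_exp_I _
  have hm1 : Measurable (fun t : ℝ => Complex.exp (Complex.I * ((μ / ε * t ^ ε : ℝ) : ℂ))) := by
    apply Complex.measurable_exp.comp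
    apply measurable_const.mul
    apply Complex.measurable_ofReal.comp
    exact measurable_const.mul (measurable_id.pow_const ε)
  have i1 := integrable_g L F hF hL (ph μ) (measurable_ph μ) (norm_ph μ) x 0 3
  have i2 := integrable_g L F hF hL (fun t : ℝ => Complex.exp (Complex.I * ((μ / ε * t ^ ε : ℝ) : ℂ)))
    hm1 (fun t => norm_exp_I _) x 0 3
  set T := ∫ t in (0:ℝ)..3, ph μ t * ((F (x - t) - F (x + t)) / (t : ℂ)) with hT
  set U := ∫ t in (0:ℝ)..3, Complex.exp (Complex.I * ((μ / ε * t ^ ε : ℝ) : ℂ)) *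
      ((F (x - t) - F (x + t)) / (t : ℂ)) with hU
  have hdiff : c * T - U = ∫ t in (0:ℝ)..3, (c * ph μ t - Complex.exp (Complex.I * ((μ / ε * t ^ ε : ℝ) : ℂ))) *
      ((F (x - t) - F (x + t)) / (t : ℂ)) := by
    rw [hT, hU, ← intervalIntegral.integral_const_mul, ← intervalIntegral.integral_sub (i1.const_mul c) i2]
    congr 1
    ext t
    ring
  have hbound : ‖c * T - U‖ ≤ ∫ t in (0:ℝ)..3, ε * L * (16 * t ^ (-(1/2) : ℝ) + 4) := by
    rw [hdiff]
    apply intervalIntegral.norm_integral_le_of_norm_le (by norm_num)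
    · filter_upwards with t ht
      have ht0 : 0 < t := ht.1
      have ht3 : t ≤ 3 := ht.2
      rw [norm_mul]
      have e1 : ‖c * ph μ t - Complex.exp (Complex.I * ((μ / ε * t ^ ε : ℝ) : ℂ))‖ ≤
          (1/100) * (ε * (16 * t ^ (-(1/2) : ℝ) + 4)) := by
        have : c * ph μ t = Complex.exp (Complex.I * ((μ / ε + μ * Real.log t : ℝ) : ℂ)) := by
          rw [hc]
          unfold ph
          rw [← Complex.exp_add]
          congr 1
          push_cast
          ring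
        rw [this]
        refine (norm_exp_I_sub_exp_I_le _ _).trans ?_
        have e2 : μ / ε + μ * Real.log t - μ / ε * t ^ ε = -(μ * ((t ^ ε - 1) / ε - Real.log t)) := by
          field_simp
          ring
        rw [e2, abs_neg, abs_mul, abs_of_nonneg hμ0]
        exact mul_le_mul hμ (phase_compare hε hε1 ht0 ht3) (abs_nonneg _) (by norm_num)
      have e3 : ‖(F (x - t) - F (x + t)) / (t : ℂ)‖ ≤ 2 * L := by
        rw [norm_div, Complex.norm_real, Real.norm_eq_abs, div_le_iff₀ (abs_pos.mpr ht0.ne')]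
        refine (hL _ _).trans ?_
        have : |x - t - (x + t)| = 2 * |t| := by
          rw [show x - t - (x + t) = -(2 * t) by ring, abs_neg, abs_mul]; norm_num
        rw [this]
        linarith
      have e4 : 0 < t ^ (-(1/2) : ℝ) := Real.rpow_pos_of_pos ht0 _
      calc _ ≤ (1/100) * (ε * (16 * t ^ (-(1/2) : ℝ) + 4)) * (2 * L) := by gcongr
        _ ≤ ε * L * (16 * t ^ (-(1/2) : ℝ) + 4) := by
          have : 0 ≤ ε * L * (16 * t ^ (-(1/2) : ℝ) + 4) := by positivity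
          nlinarith
    · apply IntervalIntegrable.const_mul
      apply IntervalIntegrable.add _ intervalIntegrable_const
      exact (intervalIntegral.intervalIntegrable_rpow' (by norm_num)).const_mul 16
  rw [intervalIntegral.integral_const_mul, mul_assoc] at hbound
  have h1 : ‖T‖ = ‖c * T‖ := by rw [norm_mul, hcn, one_mul]
  have h2 : ‖c * T‖ ≤ ‖U‖ + ‖c * T - U‖ := by
    have := norm_add_le U (c * T - U)
    rwa [add_sub_cancel] at this
  linarith

end Pool.Agent.Lib.MP_45ee41_an
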