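import Mathlib
import Pool.Agent.Lib.MP_45ee41_an.Defs
import Pool.Agent.Lib.MP_45ee41_an.Oscillatory

/-!
The best constants of the maximal operators
`C_ε f (x) = sup_λ | p.v. ∫ exp(i λ |x-y|^ε) / (x-y) f(y) dy |` on `L²(ℝ)` tend to infinity as
`ε → 0+`; in particular no uniform `L²` bound holds for `0 < ε < 1/2`.

Idea: with `λ = μ/ε` the phase `λ |t|^ε` is, up to a constant, close to `μ log |t|`.  On the
exponential `exp(i N x)` the limiting operator acts as multiplication by `c(μ) N^{-iμ}`.  For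
frequencies `N_j` with `log N_j` lacunary one can choose, for each `x`, a number `μ` which aligns all
the terms of `∑_{j<m} exp(i N_j x)`, so the maximal function is at least `c m` on `[-1/2,1/2]`, while
the `L²` norm of the (truncated) sum is at most `(6 m)^{1/2}`.
-/

open MeasureTheory Filter Topology Set

namespace Pool.Agent.Lib.MP_45ee41_an

/-- fold the truncated integral to the positive half line -/
theorem truncated_fold (ε lam : ℝ) (f : ℝ → ℂ) (hf : Continuous f) (x δ : ℝ) (hδ : 0 < δ) :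
    truncated ε lam f x δ = ∫ t in Ioo δ (1/δ),
      Complex.exp (Complex.I * ((lam * t ^ ε : ℝ) : ℂ)) * ((f (x - t) - f (x + t)) / (t : ℂ)) := by
  set G : ℝ → ℂ := fun t => Complex.exp (Complex.I * ((lam * |t| ^ ε : ℝ) : ℂ)) / (t : ℂ) * f (x - t) with hG
  set S : Set ℝ := {t : ℝ | δ < |t| ∧ |t| < 1 / δ} with hS
  have hSm : MeasurableSet S := by
    have : S = (fun t : ℝ => |t|) ⁻¹' (Ioo δ (1/δ)) := by ext t; simp [hS]
    rw [this]
    exact (measurable_norm : Measurable (fun t : ℝ => ‖t‖)) measurableSet_Ioo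
  have hSx : MeasurableSet {y : ℝ | δ < |x - y| ∧ |x - y| < 1 / δ} := by
    have : {y : ℝ | δ < |x - y| ∧ |x - y| < 1 / δ} = (fun y : ℝ => x - y) ⁻¹' S := by
      ext y; simp [hS]
    rw [this]
    exact (measurable_const.sub measurable_id) hSm
  have h1 : truncated ε lam f x δ = ∫ t in S, G t := by
    unfold truncated
    rw [← integral_indicator hSx, ← integral_indicator hSm,
      ← integral_sub_left_eq_self (fun t => S.indicator G t) volume x]
    congr 1
    ext y
    by_cases hy : δ < |x - y| ∧ |x - y| < 1 / δ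
    · rw [indicator_of_mem (show y ∈ {y : ℝ | δ < |x - y| ∧ |x - y| < 1 / δ} from hy),
        indicator_of_mem (show x - y ∈ S from hy)]
      simp [hG]
    · rw [indicator_of_notMem (show y ∉ {y : ℝ | δ < |x - y| ∧ |x - y| < 1 / δ} from hy),
        indicator_of_notMem (show x - y ∉ S from hy)]
  have hSeq : S = Ioo δ (1/δ) ∪ Ioo (-(1/δ)) (-δ) := by
    ext t
    simp only [hS, mem_ofPred_eq, mem_union, mem_Ioo]
    constructor
    · rintro ⟨ha, hb⟩
      rcases le_or_gt 0 t with ht | ht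
      · rw [abs_of_nonneg ht] at ha hb
        exact Or.inl ⟨ha, hb⟩
      · rw [abs_of_neg ht] at ha hb
        exact Or.inr ⟨by linarith, by linarith⟩
    · rintro (⟨ha, hb⟩ | ⟨ha, hb⟩)
      · rw [abs_of_pos (hδ.trans ha)]; exact ⟨ha, hb⟩
      · rw [abs_of_neg (by linarith)]; exact ⟨by linarith, by linarith⟩
  have hdisj : Disjoint (Ioo δ (1/δ)) (Ioo (-(1/δ)) (-δ)) := by
    rw [Set.disjoint_left]
    rintro t ⟨ha, _⟩ ⟨_, hb⟩
    linarith
  have hGc : ContinuousOn G {t : ℝ | t ≠ 0} := by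
    intro t ht
    apply ContinuousAt.continuousWithinAt
    have habs : ContinuousAt (fun t : ℝ => |t| ^ ε) t :=
      ContinuousAt.rpow_const continuous_abs.continuousAt (Or.inl (abs_ne_zero.mpr ht))
    have h2 : ContinuousAt (fun t : ℝ => Complex.exp (Complex.I * ((lam * |t| ^ ε : ℝ) : ℂ))) t := by
      apply Complex.continuous_exp.continuousAt.comp
      apply ContinuousAt.mul continuousAt_const
      exact Complex.continuous_ofReal.continuousAt.comp (continuousAt_const.mul habs)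
    apply ContinuousAt.mul
    · exact h2.div Complex.continuous_ofReal.continuousAt (by exact_mod_cast ht)
    · exact (hf.comp (continuous_const.sub continuous_id)).continuousAt
  have hi1 : IntegrableOn G (Ioo δ (1/δ)) := by
    have : IntegrableOn G (Icc δ (1/δ)) := by
      apply ContinuousOn.integrableOn_Icc
      apply hGc.mono
      rintro t ⟨ha, _⟩
      exact (hδ.trans_le ha).ne'
    exact this.mono_set Ioo_subset_Icc_self
  have hi2 : IntegrableOn G (Ioo (-(1/δ)) (-δ)) := by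
    have : IntegrableOn G (Icc (-(1/δ)) (-δ)) := by
      apply ContinuousOn.integrableOn_Icc
      apply hGc.mono
      rintro t ⟨_, hb⟩
      have : t < 0 := by linarith
      exact this.ne
    exact this.mono_set Ioo_subset_Icc_self
  have h2 : ∫ t in S, G t = (∫ t in Ioo δ (1/δ), G t) + ∫ t in Ioo (-(1/δ)) (-δ), G t := by
    rw [hSeq]
    exact setIntegral_union hdisj measurableSet_Ioo hi1 hi2
  have h3 : ∫ t in Ioo (-(1/δ)) (-δ), G t = ∫ t in Ioo δ (1/δ), G (-t) := by
    rw [← integral_indicator measurableSet_Ioo, ← integral_indicator measurableSet_Ioo,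
      ← integral_neg_eq_self]
    congr 1
    ext t
    by_cases ht : t ∈ Ioo δ (1/δ)
    · have ht' : -t ∈ Ioo (-(1/δ)) (-δ) := ⟨by linarith [ht.2], by linarith [ht.1]⟩
      rw [indicator_of_mem ht, indicator_of_mem ht']
    · have ht' : -t ∉ Ioo (-(1/δ)) (-δ) := by
        rintro ⟨ha, hb⟩
        exact ht ⟨by linarith, by linarith⟩
      rw [indicator_of_notMem ht, indicator_of_notMem ht']
  have hi3 : IntegrableOn (fun t => G (-t)) (Ioo δ (1/δ)) := by
    have : IntegrableOn (fun t => G (-t)) (Icc δ (1/δ)) := by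
      apply ContinuousOn.integrableOn_Icc
      apply hGc.comp continuous_neg.continuousOn
      rintro t ⟨ha, _⟩
      have : 0 < t := hδ.trans_le ha
      simp only [mem_ofPred_eq, neg_ne_zero]
      exact this.ne'
    exact this.mono_set Ioo_subset_Icc_self
  rw [h1, h2, h3, ← integral_add hi1 hi3]
  apply setIntegral_congr_fun measurableSet_Ioo
  intro t ht
  have ht0 : 0 < t := hδ.trans ht.1
  have htc : (t : ℂ) ≠ 0 := by exact_mod_cast ht0.ne'
  simp only [hG, abs_neg, abs_of_pos ht0, sub_neg_eq_add, Complex.ofReal_neg]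
  field_simp
  ring

/-- The limit of the truncated integrals. -/
theorem tendsto_truncated (ε lam : ℝ) (f : ℝ → ℂ) (hf : Continuous f) (x : ℝ)
    (hint : IntegrableOn (fun t : ℝ => Complex.exp (Complex.I * ((lam * t ^ ε : ℝ) : ℂ)) *
      ((f (x - t) - f (x + t)) / (t : ℂ))) (Ioi 0)) :
    Tendsto (fun δ : ℝ => truncated ε lam f x δ) (𝓝[>] 0)
      (𝓝 (∫ t in Ioi (0:ℝ), Complex.exp (Complex.I * ((lam * t ^ ε : ℝ) : ℂ)) *
      ((f (x - t) - f (x + t)) / (t : ℂ)))) := by
  set h : ℝ → ℂ := fun t : ℝ => Complex.exp (Complex.I * ((lam * t ^ ε : ℝ) : ℂ)) *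
      ((f (x - t) - f (x + t)) / (t : ℂ)) with hh
  have h1 : Tendsto (fun δ : ℝ => ∫ t, (Ioo δ (1/δ)).indicator h t) (𝓝[>] 0)
      (𝓝 (∫ t, (Ioi (0:ℝ)).indicator h t)) := by
    apply tendsto_integral_filter_of_dominated_convergence (fun t => ‖(Ioi (0:ℝ)).indicator h t‖)
    · filter_upwards [self_mem_nhdsWithin] with δ hδ
      have : IntegrableOn h (Ioo δ (1/δ)) := hint.mono_set (fun t ht => hδ.trans ht.1)
      exact (this.integrable_indicator measurableSet_Ioo).aestronglyMeasurable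
    · filter_upwards [self_mem_nhdsWithin] with δ hδ
      filter_upwards with t
      by_cases ht : t ∈ Ioo δ (1/δ)
      · rw [indicator_of_mem ht, indicator_of_mem (show t ∈ Ioi (0:ℝ) from lt_trans hδ ht.1)]
      · rw [indicator_of_notMem ht]; simp
    · exact (hint.integrable_indicator measurableSet_Ioi).norm
    · filter_upwards with t
      by_cases ht : 0 < t
      · rw [indicator_of_mem (show t ∈ Ioi (0:ℝ) from ht)]
        apply tendsto_const_nhds.congr'
        have e1 : ∀ᶠ δ in 𝓝[>] (0:ℝ), δ < t := by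
          apply mem_nhdsWithin_of_mem_nhds
          exact Iio_mem_nhds ht
        have e2 : ∀ᶠ δ in 𝓝[>] (0:ℝ), δ < 1/t := by
          apply mem_nhdsWithin_of_mem_nhds
          exact Iio_mem_nhds (by positivity)
        filter_upwards [e1, e2, self_mem_nhdsWithin] with δ h1 h2 h3
        have h3' : 0 < δ := h3
        have : t ∈ Ioo δ (1/δ) := by
          refine ⟨h1, ?_⟩
          rw [lt_div_iff₀ h3']
          rw [lt_div_iff₀ ht] at h2
          linarith
        rw [indicator_of_mem this]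
      · rw [indicator_of_notMem (show t ∉ Ioi (0:ℝ) from ht)]
        apply tendsto_const_nhds.congr'
        filter_upwards [self_mem_nhdsWithin] with δ h3
        have : t ∉ Ioo δ (1/δ) := fun h => ht (lt_trans h3 h.1)
        rw [indicator_of_notMem this]
  rw [integral_indicator measurableSet_Ioi] at h1
  refine h1.congr' ?_
  filter_upwards [self_mem_nhdsWithin] with δ hδ
  rw [integral_indicator measurableSet_Ioo, truncated_fold ε lam f hf x δ hδ]

/-- For every Schwartz function the defining limit of `H` exists, for all `x`, `ε` and `λ`. -/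
theorem H_limit_exists (ε lam : ℝ) (f : SchwartzMap ℝ ℂ) (x : ℝ) :
    Tendsto (fun δ : ℝ => truncated ε lam f x δ) (𝓝[>] 0) (𝓝 (H ε lam f x)) := by
  have hf : Continuous f := f.continuous
  have hint : IntegrableOn (fun t : ℝ => Complex.exp (Complex.I * ((lam * t ^ ε : ℝ) : ℂ)) *
      ((f (x - t) - f (x + t)) / (t : ℂ))) (Ioi 0) := by
    have hm : Measurable (fun t : ℝ => Complex.exp (Complex.I * ((lam * t ^ ε : ℝ) : ℂ)) *
      ((f (x - t) - f (x + t)) / (t : ℂ))) := by
      apply Measurable.mul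
      · apply Complex.measurable_exp.comp
        apply measurable_const.mul
        apply Complex.measurable_ofReal.comp
        exact measurable_const.mul (measurable_id.pow_const ε)
      · apply Measurable.div _ Complex.measurable_ofReal
        exact ((hf.comp (by fun_prop)).sub (hf.comp (by fun_prop))).measurable
    obtain ⟨L, hL⟩ : ∃ L : ℝ, ∀ a b : ℝ, ‖f a - f b‖ ≤ L * |a - b| := by
      obtain ⟨C, hC⟩ := f.decay 0 1
      refine ⟨C, fun a b => ?_⟩
      have := Convex.norm_image_sub_le_of_norm_fderiv_le (𝕜 := ℝ) (f := f) (s := univ) (C := C)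
        (fun z _ => f.differentiable z) (by
          intro z _
          have := hC.2 z
          rw [norm_iteratedFDeriv_one] at this
          simpa using this) convex_univ (mem_univ b) (mem_univ a)
      simpa using this
    have hsplit : Ioi (0:ℝ) = Ioc 0 1 ∪ Ioi 1 := (Ioc_union_Ioi_eq_Ioi zero_le_one).symm
    rw [hsplit]
    apply IntegrableOn.union
    · have hc : IntegrableOn (fun _ : ℝ => 2 * L) (Ioc (0:ℝ) 1) :=
        integrableOn_const (by rw [Real.volume_Ioc]; exact ENNReal.ofReal_ne_top)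
      apply Integrable.mono' hc hm.aestronglyMeasurable
      filter_upwards [ae_restrict_mem measurableSet_Ioc] with t ht
      have ht0 : 0 < t := ht.1
      rw [norm_mul, norm_exp_I, one_mul, norm_div, Complex.norm_real,
        Real.norm_eq_abs, div_le_iff₀ (abs_pos.mpr ht0.ne')]
      refine (hL _ _).trans ?_
      have : |x - t - (x + t)| = 2 * |t| := by
        rw [show x - t - (x + t) = -(2 * t) by ring, abs_neg, abs_mul]; norm_num
      rw [this]
      linarith
    · have hI : Integrable (fun t => f t) := f.integrable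
      have hc : IntegrableOn (fun t : ℝ => ‖f (x - t)‖ + ‖f (x + t)‖) (Ioi (1:ℝ)) := by
        apply Integrable.integrableOn
        exact (hI.comp_sub_left x).norm.add (hI.comp_add_left x).norm
      apply Integrable.mono' hc hm.aestronglyMeasurable
      filter_upwards [ae_restrict_mem measurableSet_Ioi] with t ht
      have ht1 : (1:ℝ) < t := ht
      rw [norm_mul, norm_exp_I, one_mul, norm_div, Complex.norm_real,
        Real.norm_eq_abs, abs_of_pos (by linarith)]
      have h5 := norm_sub_le (f (x - t)) (f (x + t))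
      have h6 := norm_nonneg (f (x - t) - f (x + t))
      rw [div_le_iff₀ (by linarith)]
      have h7 : 0 ≤ ‖f (x - t)‖ + ‖f (x + t)‖ := by positivity
      nlinarith
  have h := tendsto_truncated ε lam f hf x hint
  have h2 : H ε lam f x = _ := h.limUnder_eq
  rw [h2]
  exact h

/-- The value of `H` for a Lipschitz function vanishing outside `(-2,2)` and `|x| ≤ 1/2`. -/
theorem H_eq (ε lam : ℝ) (f : ℝ → ℂ) (hf : Continuous f) {L : ℝ}
    (hL : ∀ x y, ‖f x - f y‖ ≤ L * |x - y|) (h0 : ∀ y, 2 ≤ |y| → f y = 0) (x : ℝ) (hx : |x| ≤ 1/2) :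
    H ε lam f x = ∫ t in (0:ℝ)..3, Complex.exp (Complex.I * ((lam * t ^ ε : ℝ) : ℂ)) *
      ((f (x - t) - f (x + t)) / (t : ℂ)) := by
  set h : ℝ → ℂ := fun t : ℝ => Complex.exp (Complex.I * ((lam * t ^ ε : ℝ) : ℂ)) *
      ((f (x - t) - f (x + t)) / (t : ℂ)) with hh
  have hm1 : Measurable (fun t : ℝ => Complex.exp (Complex.I * ((lam * t ^ ε : ℝ) : ℂ))) := by
    apply Complex.measurable_exp.comp
    apply measurable_const.mul
    apply Complex.measurable_ofReal.comp
    exact measurable_const.mul (measurable_id.pow_const ε)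
  have i1 := integrable_g L f hf hL
    (fun t : ℝ => Complex.exp (Complex.I * ((lam * t ^ ε : ℝ) : ℂ))) hm1
    (fun t => norm_exp_I _) x 0 3
  have i2 : IntegrableOn h (Ioc 0 3) := by
    have := i1.1
    exact this
  have hz : ∀ t ∈ Ioi (3:ℝ), h t = 0 := by
    intro t ht
    have ht3 : (3:ℝ) < t := ht
    have hx' := abs_le.mp hx
    have e1 : f (x - t) = 0 := h0 _ (by rw [le_abs]; right; linarith [hx'.2])
    have e2 : f (x + t) = 0 := h0 _ (by rw [le_abs]; left; linarith [hx'.1])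
    simp only [hh]
    rw [e1, e2]
    simp
  have i3 : IntegrableOn h (Ioi 3) := by
    apply (integrableOn_zero).congr_fun (fun t ht => (hz t ht).symm) measurableSet_Ioi
  have hsplit : Ioi (0:ℝ) = Ioc 0 3 ∪ Ioi 3 := (Ioc_union_Ioi_eq_Ioi (by norm_num)).symm
  have i4 : IntegrableOn h (Ioi 0) := by
    rw [hsplit]; exact i2.union i3
  have hlim : H ε lam f x = ∫ t in Ioi (0:ℝ), h t := (tendsto_truncated ε lam f hf x i4).limUnder_eq
  rw [hlim, hsplit, setIntegral_union (by
    rw [Set.disjoint_left]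
    rintro t ⟨_, ha⟩ hb
    exact absurd ha (not_le.mpr hb)) measurableSet_Ioi i2 i3,
    setIntegral_congr_fun measurableSet_Ioi hz, intervalIntegral.integral_of_le (by norm_num),
    integral_zero, add_zero]

theorem constants_tend_to_infinity : ∀ C : ℝ, ∃ ε₀ : ℝ, 0 < ε₀ ∧ ε₀ ≤ 1 / 2 ∧ ∀ ε : ℝ, 0 < ε → ε < ε₀ →
    ∃ f : SchwartzMap ℝ ℂ,
      ENNReal.ofReal C * (∫⁻ x, ‖f x‖ₑ ^ 2) ^ (1 / 2 : ℝ) <
        (∫⁻ x, (maximal ε f x) ^ 2) ^ (1 / 2 : ℝ) := by
  intro C
  -- the bump
  let φ : ContDiffBump (0 : ℝ) := ⟨1, 2, by norm_num, by norm_num⟩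
  have hφd : ContDiff ℝ (⊤ : ℕ∞) (φ : ℝ → ℝ) := φ.contDiff
  have hφdiff : Differentiable ℝ (φ : ℝ → ℝ) := hφd.differentiable (by norm_num)
  have hφ : ∀ y, HasDerivAt (φ : ℝ → ℝ) (deriv (φ : ℝ → ℝ) y) y := fun y => (hφdiff y).hasDerivAt
  have hφc : Continuous (deriv (φ : ℝ → ℝ)) := (contDiff_infty_iff_deriv.mp hφd).2.continuous
  have hφs : HasCompactSupport (deriv (φ : ℝ → ℝ)) := φ.hasCompactSupport.deriv
  obtain ⟨B, hB⟩ : ∃ B : ℝ, ∀ y, |deriv (φ : ℝ → ℝ) y| ≤ B := by
    obtain ⟨B, hB⟩ := hφs.exists_bound_of_continuous hφc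
    exact ⟨B, hB⟩
  have h1 : ∀ y, |φ y| ≤ 1 := by
    intro y
    rw [abs_of_nonneg φ.nonneg]
    exact φ.le_one
  have hone : ∀ y, |y| ≤ 1 → φ y = 1 := by
    intro y hy
    apply φ.one_of_mem_closedBall
    rw [mem_closedBall_zero_iff]
    exact hy
  have hzero : ∀ y, 2 ≤ |y| → φ y = 0 := by
    intro y hy
    apply φ.zero_of_le_dist
    rw [dist_zero_right]
    exact hy
  -- the parameters
  obtain ⟨m, hm⟩ : ∃ m : ℕ, 384 * C ^ 2 + 1 < m := exists_nat_gt _
  have hmpos : (0:ℝ) < m := by nlinarith [sq_nonneg C]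
  have hB0 : 0 ≤ B := (abs_nonneg _).trans (hB 0)
  set N0 : ℝ := 2 + m + 5 * (47 + 10 * B) with hN0
  have hN0pos : 0 < N0 := by positivity
  have hNm : (m:ℝ) ≤ N0 := by rw [hN0]; nlinarith
  -- the Schwartz function
  have hfsm : ContDiff ℝ (⊤ : ℕ∞) (ff φ N0 m) := by
    unfold ff FF
    apply ContDiff.sum
    intro j _
    apply ContDiff.mul
    · exact Complex.ofRealCLM.contDiff.comp hφd
    · apply ContDiff.cexp
      apply contDiff_const.mul
      exact Complex.ofRealCLM.contDiff.comp (contDiff_const.mul contDiff_id)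
  have hfz : ∀ y, 2 ≤ |y| → ff φ N0 m y = 0 := by
    intro y hy
    unfold ff FF
    simp [hzero y hy]
  have hfs : HasCompactSupport (ff φ N0 m) := by
    apply HasCompactSupport.intro (isCompact_Icc (a := (-2:ℝ)) (b := 2))
    intro y hy
    apply hfz
    rw [le_abs]
    by_contra hcon
    push Not at hcon
    exact hy ⟨by linarith [hcon.2], by linarith [hcon.1]⟩
  have hfc : Continuous (ff φ N0 m) := hfsm.continuous
  obtain ⟨L, hL⟩ : ∃ L : ℝ, ∀ a b : ℝ, ‖ff φ N0 m a - ff φ N0 m b‖ ≤ L * |a - b| := by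
    have hfd : Differentiable ℝ (ff φ N0 m) := hfsm.differentiable (by norm_num)
    have hdc : Continuous (fderiv ℝ (ff φ N0 m)) := hfsm.continuous_fderiv (by norm_num)
    have hds : HasCompactSupport (fderiv ℝ (ff φ N0 m)) := hfs.fderiv (𝕜 := ℝ)
    obtain ⟨L, hL⟩ := hds.exists_bound_of_continuous hdc
    refine ⟨L, fun a b => ?_⟩
    have := Convex.norm_image_sub_le_of_norm_fderiv_le (𝕜 := ℝ) (f := ff φ N0 m) (s := univ) (C := L)
      (fun z _ => hfd z) (fun z _ => hL z) convex_univ (mem_univ b) (mem_univ a)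
    simpa using this
  have hL0 : 0 ≤ L := by
    have := (norm_nonneg _).trans (hL 1 0)
    simpa using this
  set A : ℝ := ∫ t in (0:ℝ)..3, (16 * t ^ (-(1/2) : ℝ) + 4) with hA
  have hA0 : 0 ≤ A := by
    rw [hA]
    apply intervalIntegral.integral_nonneg (by norm_num)
    intro t ht
    have := Real.rpow_nonneg ht.1 (-(1/2) : ℝ)
    linarith
  have hLA : 0 ≤ L * A := mul_nonneg hL0 hA0
  refine ⟨min (1/2) ((m:ℝ) / 8 / (L * A + 1)), ?_, min_le_left _ _, ?_⟩
  · apply lt_min (by norm_num)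
    positivity
  intro ε hε hε0
  have hε1 : ε ≤ 1/2 := (hε0.trans_le (min_le_left _ _)).le
  have hε2 : ε * (L * A) ≤ (m:ℝ) / 8 := by
    have h2 : ε < (m:ℝ) / 8 / (L * A + 1) := hε0.trans_le (min_le_right _ _)
    rw [lt_div_iff₀ (by linarith)] at h2
    nlinarith
  refine ⟨hfs.toSchwartzMap hfsm, ?_⟩
  have hcoe : ((hfs.toSchwartzMap hfsm : SchwartzMap ℝ ℂ) : ℝ → ℂ) = ff φ N0 m := rfl
  rw [hcoe]
  -- lower bound of the maximal function
  have hlow : ∀ x ∈ Icc (-(1/2):ℝ) (1/2), ENNReal.ofReal ((m:ℝ) / 8) ≤ maximal ε (ff φ N0 m) x := by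
    intro x hx
    have hx' : |x| ≤ 1/2 := abs_le.mpr ⟨by linarith [hx.1], hx.2⟩
    obtain ⟨μ, hμ0, hμ, hT⟩ := T_lower φ (deriv (φ : ℝ → ℝ)) hφ hφc h1 hone B hB
      (N0 := N0) (by rw [hN0]; nlinarith) (by rw [hN0]; nlinarith) m x hx'
    have hcmp := compare_integrals hε hε1 hμ0 hμ (ff φ N0 m) hfc hL x
    have hHeq := H_eq ε (μ / ε) (ff φ N0 m) hfc hL hfz x hx'
    rw [← hHeq] at hcmp
    have hge : (m:ℝ) / 8 ≤ ‖H ε (μ / ε) (ff φ N0 m) x‖ := by
      rw [← hA] at hcmp
      linarith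
    calc ENNReal.ofReal ((m:ℝ) / 8) ≤ ENNReal.ofReal ‖H ε (μ / ε) (ff φ N0 m) x‖ :=
          ENNReal.ofReal_le_ofReal hge
      _ = ‖H ε (μ / ε) (ff φ N0 m) x‖ₑ := ofReal_norm _
      _ ≤ maximal ε (ff φ N0 m) x := le_iSup (fun lam => ‖H ε lam (ff φ N0 m) x‖ₑ) (μ / ε)
  have hI1 : ENNReal.ofReal (((m:ℝ) / 8) ^ 2) ≤ ∫⁻ x, (maximal ε (ff φ N0 m) x) ^ 2 := by
    calc ENNReal.ofReal (((m:ℝ) / 8) ^ 2)
        = ∫⁻ x in Icc (-(1/2):ℝ) (1/2), (ENNReal.ofReal ((m:ℝ) / 8)) ^ 2 := by
          rw [lintegral_const, Measure.restrict_apply MeasurableSet.univ, univ_inter, Real.volume_Icc,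
            ENNReal.ofReal_pow (by positivity)]
          norm_num
      _ = ∫⁻ x, (Icc (-(1/2):ℝ) (1/2)).indicator (fun _ => (ENNReal.ofReal ((m:ℝ) / 8)) ^ 2) x :=
          (lintegral_indicator measurableSet_Icc _).symm
      _ ≤ ∫⁻ x, (maximal ε (ff φ N0 m) x) ^ 2 := by
          apply lintegral_mono
          intro x
          by_cases hx : x ∈ Icc (-(1/2):ℝ) (1/2)
          · simp only [indicator_of_mem hx]
            exact pow_le_pow_left₀ (by simp) (hlow x hx) 2
          · simp only [indicator_of_notMem hx]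
            exact bot_le
  have hI2 := ff_L2 φ h1 hzero hN0pos m hNm
  have hC : C ≤ |C| := le_abs_self C
  calc ENNReal.ofReal C * (∫⁻ x, ‖ff φ N0 m x‖ₑ ^ 2) ^ (1 / 2 : ℝ)
      ≤ ENNReal.ofReal |C| * (ENNReal.ofReal (6 * m)) ^ (1 / 2 : ℝ) := by
        gcongr
    _ = (ENNReal.ofReal (C ^ 2 * (6 * m))) ^ (1 / 2 : ℝ) := by
        rw [ENNReal.ofReal_mul (sq_nonneg C), ENNReal.mul_rpow_of_nonneg _ _ (by norm_num)]
        congr 1
        rw [← sq_abs, ENNReal.ofReal_pow (abs_nonneg C), ← ENNReal.rpow_natCast, ← ENNReal.rpow_mul]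
        norm_num
    _ < (ENNReal.ofReal (((m:ℝ) / 8) ^ 2)) ^ (1 / 2 : ℝ) := by
        apply ENNReal.rpow_lt_rpow _ (by norm_num)
        apply (ENNReal.ofReal_lt_ofReal_iff (by positivity)).mpr
        nlinarith
    _ ≤ (∫⁻ x, (maximal ε (ff φ N0 m) x) ^ 2) ^ (1 / 2 : ℝ) := by
        gcongr

end Pool.Agent.Lib.MP_45ee41_an
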